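import Pool.Agent.Lib.MP_848d44_nt.Sel

/-!
# Selberg weights supported on divisors coprime to `k` (copy of MP_848d44_nt/F/Selk.lean with
fewer imports)
-/

set_option autoImplicit false

namespace Pool.Agent.C497.Sel

open Pool.Agent.M848

open Finset
open scoped ArithmeticFunction ComplexConjugate

noncomputable section

namespace SelK

open Pool.Agent.M848.SelAux

/-- The Moebius function restricted to integers coprime to `k`. -/
def muk (k n : ℕ) : ℝ := if n.Coprime k then mu n else 0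

def gk (k T d : ℕ) : ℝ :=
  ∑ t ∈ (Icc 1 T).filter (fun t => d ∣ t), muk k t ^ 2 / (t.totient : ℝ)

lemma muk_abs_le (k n : ℕ) : |muk k n| ≤ 1 := by
  unfold muk
  split_ifs
  · exact mu_abs_le n
  · simp

lemma muk_sq_le (k n : ℕ) : muk k n ^ 2 ≤ 1 := by
  have h := muk_abs_le k n
  rw [← sq_abs]
  have := abs_nonneg (muk k n)
  nlinarith

lemma muk_zero_of_not {k n : ℕ} (h : ¬ Squarefree n) : muk k n = 0 := by
  unfold muk
  split_ifs
  · exact mu_zero_of_not h
  · rfl

lemma inner_sumk {k T f t : ℕ} (hf : 1 ≤ f) (ht : t ∈ Icc 1 T) (hsf : Squarefree t)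
    (hc : t.Coprime k) :
    ∑ d ∈ (Icc 1 T).filter (fun d => f ∣ d ∧ d ∣ t), muk k d = if t = f then muk k f else 0 := by
  have h1 : ∀ d ∈ (Icc 1 T).filter (fun d => f ∣ d ∧ d ∣ t), muk k d = mu d := by
    intro d hd
    rw [mem_filter] at hd
    unfold muk
    rw [if_pos (Nat.Coprime.coprime_dvd_left hd.2.2 hc)]
  rw [sum_congr rfl h1, inner_sum hf ht hsf]
  split_ifs with h
  · subst h
    unfold muk
    rw [if_pos hc]
  · rfl

lemma yfk {k T f : ℕ} (hf : f ∈ Icc 1 T) :
    ∑ d ∈ (Icc 1 T).filter (fun d => f ∣ d), muk k d * gk k T d =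
      muk k f * (muk k f ^ 2 / (f.totient : ℝ)) := by
  have hf' := mem_Icc.mp hf
  unfold gk
  have h1 : ∑ d ∈ (Icc 1 T).filter (fun d => f ∣ d), muk k d *
      ∑ t ∈ (Icc 1 T).filter (fun t => d ∣ t), muk k t ^ 2 / (t.totient : ℝ) =
      ∑ t ∈ Icc 1 T, (muk k t ^ 2 / (t.totient : ℝ)) *
        ∑ d ∈ (Icc 1 T).filter (fun d => f ∣ d ∧ d ∣ t), muk k d := by
    simp_rw [mul_sum]
    rw [sum_filter]
    simp_rw [sum_filter]
    have h2 : ∀ d ∈ Icc 1 T, (if f ∣ d then ∑ t ∈ Icc 1 T,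
        (if d ∣ t then muk k d * (muk k t ^ 2 / (t.totient : ℝ)) else 0) else 0)
        = ∑ t ∈ Icc 1 T, if f ∣ d ∧ d ∣ t then muk k d * (muk k t ^ 2 / (t.totient : ℝ)) else 0 := by
      intro d _
      split_ifs with h
      · apply sum_congr rfl
        intro t _
        simp [h]
      · simp [h]
    rw [sum_congr rfl h2, sum_comm]
    apply sum_congr rfl
    intro t _
    apply sum_congr rfl
    intro d _
    split_ifs
    · ring
    · rfl
  rw [h1]
  have h3 : ∀ t ∈ Icc 1 T, (muk k t ^ 2 / (t.totient : ℝ)) *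
        ∑ d ∈ (Icc 1 T).filter (fun d => f ∣ d ∧ d ∣ t), muk k d =
        if t = f then muk k f * (muk k f ^ 2 / (f.totient : ℝ)) else 0 := by
    intro t ht
    by_cases hs : Squarefree t
    · by_cases hc : t.Coprime k
      · rw [inner_sumk hf'.1 ht hs hc]
        split_ifs with h
        · subst h
          ring
        · ring
      · have h0 : muk k t = 0 := by
          unfold muk
          rw [if_neg hc]
        rw [h0]
        split_ifs with h
        · subst h
          rw [h0]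
          ring
        · ring
    · rw [muk_zero_of_not hs]
      split_ifs with h
      · subst h
        rw [muk_zero_of_not hs]
        ring
      · ring
  rw [sum_congr rfl h3, sum_ite_eq' (Icc 1 T) f]
  rw [if_pos hf]

def bbk (k T d : ℕ) : ℝ := d * (muk k d * gk k T d)

lemma QQ_eqk (k T : ℕ) : QQ (bbk k T) T = gk k T 1 := by
  unfold QQ
  have h1 : ∀ d ∈ Icc 1 T, ∀ e ∈ Icc 1 T, bbk k T d * bbk k T e / (Nat.lcm d e : ℝ) =
      ∑ f ∈ Icc 1 T, (f.totient : ℝ) * ((if f ∣ d then muk k d * gk k T d else 0) *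
        (if f ∣ e then muk k e * gk k T e else 0)) := by
    intro d hd e he
    have hd' : (d : ℝ) ≠ 0 := by
      have := (mem_Icc.mp hd).1
      positivity
    have he' : (e : ℝ) ≠ 0 := by
      have := (mem_Icc.mp he).1
      positivity
    rw [div_eq_mul_one_div, inv_lcm T hd he]
    unfold bbk
    rw [← mul_assoc]
    have h2 : (d : ℝ) * (muk k d * gk k T d) * (e * (muk k e * gk k T e)) * (1 / ((d : ℝ) * e)) =
        muk k d * gk k T d * (muk k e * gk k T e) := by
      field_simp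
    rw [h2, mul_sum]
    apply sum_congr rfl
    intro f _
    by_cases h3 : f ∣ d <;> by_cases h4 : f ∣ e <;> simp [h3, h4] <;> ring
  rw [sum_congr rfl (fun d hd => sum_congr rfl (h1 d hd))]
  have h5 : ∑ d ∈ Icc 1 T, ∑ e ∈ Icc 1 T, ∑ f ∈ Icc 1 T, (f.totient : ℝ) *
      ((if f ∣ d then muk k d * gk k T d else 0) * (if f ∣ e then muk k e * gk k T e else 0)) =
      ∑ f ∈ Icc 1 T, (f.totient : ℝ) *
        (∑ d ∈ Icc 1 T, (if f ∣ d then muk k d * gk k T d else 0)) ^ 2 := by
    have h6 : ∀ d ∈ Icc 1 T, ∑ e ∈ Icc 1 T, ∑ f ∈ Icc 1 T, (f.totient : ℝ) *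
      ((if f ∣ d then muk k d * gk k T d else 0) * (if f ∣ e then muk k e * gk k T e else 0)) =
      ∑ f ∈ Icc 1 T, ∑ e ∈ Icc 1 T, (f.totient : ℝ) *
      ((if f ∣ d then muk k d * gk k T d else 0) * (if f ∣ e then muk k e * gk k T e else 0)) :=
      fun d _ => sum_comm
    rw [sum_congr rfl h6, sum_comm]
    apply sum_congr rfl
    intro f _
    rw [sq, sum_mul_sum, mul_sum]
    apply sum_congr rfl
    intro d _
    rw [mul_sum]
  rw [h5]
  have h8 : gk k T 1 = ∑ f ∈ Icc 1 T, muk k f ^ 2 / (f.totient : ℝ) := by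
    unfold gk
    simp only [one_dvd, filter_true]
  rw [h8]
  apply sum_congr rfl
  intro f hf
  have h7 := yfk (k := k) hf
  rw [sum_filter] at h7
  rw [h7]
  have hphi : (f.totient : ℝ) ≠ 0 := by
    have := Nat.totient_pos.mpr (show 0 < f from (mem_Icc.mp hf).1)
    positivity
  by_cases hs : Squarefree f
  · by_cases hc : f.Coprime k
    · have h9 : muk k f ^ 2 = 1 := by
        unfold muk
        rw [if_pos hc]
        exact mu_sq_sf hs
      rw [mul_pow, h9]
      field_simp
    · have h0 : muk k f = 0 := by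
        unfold muk
        rw [if_neg hc]
      rw [h0]
      simp
  · rw [muk_zero_of_not hs]
    simp

lemma gk_le (k T d : ℕ) : |gk k T d| ≤ T := by
  unfold gk
  calc |∑ t ∈ (Icc 1 T).filter (fun t => d ∣ t), muk k t ^ 2 / (t.totient : ℝ)|
      ≤ ∑ t ∈ (Icc 1 T).filter (fun t => d ∣ t), |muk k t ^ 2 / (t.totient : ℝ)| :=
        abs_sum_le_sum_abs _ _
    _ ≤ ∑ t ∈ (Icc 1 T).filter (fun t => d ∣ t), (1 : ℝ) := by
        apply sum_le_sum
        intro t ht
        have h1 : (1 : ℝ) ≤ (t.totient : ℝ) := by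
          have := Nat.totient_pos.mpr (show 0 < t from (mem_Icc.mp (mem_filter.mp ht).1).1)
          exact_mod_cast this
        rw [abs_of_nonneg (by positivity), div_le_one (by linarith)]
        linarith [muk_sq_le k t]
    _ ≤ T := by
        rw [sum_const, nsmul_eq_mul, mul_one]
        have h1 := card_filter_le (Icc 1 T) (fun t => d ∣ t)
        rw [Nat.card_Icc] at h1
        have : ((Icc 1 T).filter (fun t => d ∣ t)).card ≤ T := by omega
        exact_mod_cast this

lemma BB_lek (k T : ℕ) : BB (bbk k T) T ≤ (T : ℝ) ^ 3 := by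
  unfold BB
  calc ∑ d ∈ Icc 1 T, |bbk k T d| ≤ ∑ d ∈ Icc 1 T, (T : ℝ) * T := by
        apply sum_le_sum
        intro d hd
        unfold bbk
        have h1 := muk_abs_le k d
        have h2 := gk_le k T d
        have h3 : (d : ℝ) ≤ T := by exact_mod_cast (mem_Icc.mp hd).2
        rw [abs_mul, abs_mul, Nat.abs_cast]
        have h4 : |muk k d| * |gk k T d| ≤ 1 * T := mul_le_mul h1 h2 (abs_nonneg _) (by norm_num)
        rw [one_mul] at h4
        exact mul_le_mul h3 h4 (by positivity) (by positivity)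
    _ = (T : ℝ) ^ 3 := by
        rw [sum_const, Nat.card_Icc, nsmul_eq_mul]
        simp
        ring

lemma gk_one_eq (k T : ℕ) : gk k T 1 =
    ∑ t ∈ (Icc 1 T).filter (fun t => Squarefree t ∧ t.Coprime k), 1 / (t.totient : ℝ) := by
  unfold gk
  simp only [one_dvd, filter_true]
  rw [sum_filter]
  apply sum_congr rfl
  intro t _
  unfold muk
  by_cases hs : Squarefree t
  · by_cases hc : t.Coprime k
    · rw [if_pos hc, if_pos ⟨hs, hc⟩, mu_sq_sf hs]
    · rw [if_neg hc, if_neg (fun h : Squarefree t ∧ t.Coprime k => hc h.2)]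
      simp
  · rw [if_neg (fun h : Squarefree t ∧ t.Coprime k => hs h.1), mu_zero_of_not hs]
    simp

lemma g_one_eq (T : ℕ) : g T 1 = ∑ t ∈ (Icc 1 T).filter Squarefree, 1 / (t.totient : ℝ) := by
  unfold g
  simp only [one_dvd, filter_true]
  rw [sum_filter]
  apply sum_congr rfl
  intro t _
  by_cases hs : Squarefree t
  · rw [if_pos hs, mu_sq_sf hs]
  · rw [if_neg hs, mu_zero_of_not hs]
    simp

lemma gk_ge_one (k T : ℕ) (hT : 1 ≤ T) : 1 ≤ gk k T 1 := by
  rw [gk_one_eq]
  have h1 : (1 : ℕ) ∈ (Icc 1 T).filter (fun t => Squarefree t ∧ t.Coprime k) := by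
    rw [mem_filter, mem_Icc]
    exact ⟨⟨le_refl _, hT⟩, squarefree_one, Nat.coprime_one_left k⟩
  have h2 := single_le_sum (f := fun t : ℕ => (1 : ℝ) / t.totient) (fun t _ => by positivity) h1
  simpa using h2

lemma sum_sf_div (k : ℕ) (hk : 1 ≤ k) :
    ∑ l ∈ k.divisors.filter Squarefree, 1 / (l.totient : ℝ) ≤ (k : ℝ) / k.totient := by
  have h1 : ∀ l : ℕ, Squarefree l → 1 / (l.totient : ℝ) =
      ∏ p ∈ l.primeFactors, (1 / ((p : ℝ) - 1)) := by
    intro l hl
    rw [Nat.totient_eq_div_primeFactors_mul, Nat.prod_primeFactors_of_squarefree hl,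
      Nat.div_self (Nat.pos_of_ne_zero hl.ne_zero), one_mul]
    push_cast
    rw [one_div, ← prod_inv_distrib]
    apply prod_congr rfl
    intro p hp
    have h2 := (Nat.prime_of_mem_primeFactors hp).one_le
    rw [Nat.cast_sub h2, Nat.cast_one, one_div]
  have h3 : (k : ℝ) / k.totient = ∏ p ∈ k.primeFactors, (1 + 1 / ((p : ℝ) - 1)) := by
    have h4 : (k.totient : ℝ) = k * ∏ p ∈ k.primeFactors, (1 - (p : ℝ)⁻¹) := by
      have h5 := Nat.totient_eq_mul_prod_factors k
      have h6 := congrArg (fun x : ℚ => (x : ℝ)) h5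
      push_cast at h6
      exact h6
    have h7 : (k : ℝ) ≠ 0 := by positivity
    rw [h4, ← div_div, div_self h7, one_div, ← prod_inv_distrib]
    apply prod_congr rfl
    intro p hp
    have h2 := (Nat.prime_of_mem_primeFactors hp).two_le
    have h8 : (2 : ℝ) ≤ p := by exact_mod_cast h2
    have h9 : (p : ℝ) - 1 ≠ 0 := by linarith
    have h10 : (p : ℝ) ≠ 0 := by linarith
    field_simp
    ring
  rw [h3, prod_one_add, sum_congr rfl (fun l hl => h1 l (mem_filter.mp hl).2)]
  have hinj : Set.InjOn Nat.primeFactors ((k.divisors.filter Squarefree : Finset ℕ) : Set ℕ) := by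
    intro x hx y hy h
    rw [mem_coe, mem_filter] at hx hy
    rw [← Nat.prod_primeFactors_of_squarefree hx.2, ← Nat.prod_primeFactors_of_squarefree hy.2, h]
  rw [← sum_image (f := fun s : Finset ℕ => ∏ p ∈ s, (1 / ((p : ℝ) - 1))) hinj]
  apply sum_le_sum_of_subset_of_nonneg
  · intro s hs
    rw [mem_image] at hs
    obtain ⟨l, hl, rfl⟩ := hs
    rw [mem_filter, Nat.mem_divisors] at hl
    rw [mem_powerset]
    exact Nat.primeFactors_mono hl.1.1 hl.1.2
  · intro s hs _
    rw [mem_powerset] at hs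
    apply prod_nonneg
    intro p hp
    have h2 := (Nat.prime_of_mem_primeFactors (hs hp)).two_le
    have h8 : (2 : ℝ) ≤ p := by exact_mod_cast h2
    have h9 : 0 < (p : ℝ) - 1 := by linarith
    positivity

lemma g_le_gk (k T : ℕ) (hk : 1 ≤ k) : g T 1 ≤ (k : ℝ) / k.totient * gk k T 1 := by
  refine le_trans ?_ (mul_le_mul_of_nonneg_right (sum_sf_div k hk)
    (le_trans (by
      rw [gk_one_eq]
      exact sum_nonneg (fun t _ => by positivity)) (le_refl (gk k T 1))))
  rw [g_one_eq, gk_one_eq, sum_mul_sum, ← sum_product']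
  have key : ∀ t ∈ (Icc 1 T).filter Squarefree,
      1 ≤ t ∧ Squarefree (t.gcd k) ∧ Squarefree (t / t.gcd k) ∧ (t / t.gcd k).Coprime k ∧
      t.totient = (t.gcd k).totient * (t / t.gcd k).totient ∧ t.gcd k * (t / t.gcd k) = t := by
    intro t ht
    rw [mem_filter, mem_Icc] at ht
    have h1 : t.gcd k * (t / t.gcd k) = t := Nat.mul_div_cancel' (Nat.gcd_dvd_left t k)
    have h2 : (t.gcd k).Coprime (t / t.gcd k) := Nat.coprime_of_squarefree_mul (by rw [h1]; exact ht.2)
    have h3 : (t / t.gcd k).Coprime k := by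
      rw [Nat.coprime_iff_gcd_eq_one]
      by_contra hne
      obtain ⟨p, hp, hpd⟩ := Nat.exists_prime_and_dvd hne
      have h4 : p ∣ t / t.gcd k := dvd_trans hpd (Nat.gcd_dvd_left _ _)
      have h5 : p ∣ k := dvd_trans hpd (Nat.gcd_dvd_right _ _)
      have h6 : p ∣ t.gcd k := Nat.dvd_gcd (dvd_trans h4 (Nat.div_dvd_of_dvd (Nat.gcd_dvd_left t k))) h5
      have h7 : p ∣ (t.gcd k).gcd (t / t.gcd k) := Nat.dvd_gcd h6 h4
      rw [Nat.coprime_iff_gcd_eq_one.mp h2] at h7
      exact hp.one_lt.ne' (Nat.dvd_one.mp h7)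
    refine ⟨ht.1.1, ht.2.squarefree_of_dvd (Nat.gcd_dvd_left t k),
      ht.2.squarefree_of_dvd (Nat.div_dvd_of_dvd (Nat.gcd_dvd_left t k)), h3, ?_, h1⟩
    rw [← Nat.totient_mul h2, h1]
  have hinj : Set.InjOn (fun t : ℕ => (t.gcd k, t / t.gcd k))
      (((Icc 1 T).filter Squarefree : Finset ℕ) : Set ℕ) := by
    intro x hx y hy h
    simp only [Prod.mk.injEq] at h
    have h1 := (key x hx).2.2.2.2.2
    have h2 := (key y hy).2.2.2.2.2
    rw [h.2, h.1] at h1
    exact h1.symm.trans h2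
  have h1 : ∑ t ∈ (Icc 1 T).filter Squarefree, 1 / (t.totient : ℝ) =
      ∑ p ∈ ((Icc 1 T).filter Squarefree).image (fun t : ℕ => (t.gcd k, t / t.gcd k)),
        1 / (p.1.totient : ℝ) * (1 / (p.2.totient : ℝ)) := by
    rw [sum_image hinj]
    apply sum_congr rfl
    intro t ht
    rw [one_div_mul_one_div]
    congr 1
    exact_mod_cast (key t ht).2.2.2.2.1
  rw [h1]
  apply sum_le_sum_of_subset_of_nonneg
  · intro p hp
    rw [mem_image] at hp
    obtain ⟨t, ht, rfl⟩ := hp
    obtain ⟨k1, k2, k3, k4, _, k6⟩ := key t ht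
    rw [mem_filter, mem_Icc] at ht
    have hgp : 0 < t.gcd k := Nat.gcd_pos_of_pos_left _ (by omega)
    have hqp : 0 < t / t.gcd k := Nat.div_pos (Nat.le_of_dvd (by omega) (Nat.gcd_dvd_left t k)) hgp
    have hql : t / t.gcd k ≤ t := Nat.div_le_self _ _
    rw [mem_product, mem_filter, Nat.mem_divisors, mem_filter, mem_Icc]
    exact ⟨⟨⟨Nat.gcd_dvd_right t k, by omega⟩, k2⟩, ⟨⟨hqp, by show t / t.gcd k ≤ T; omega⟩, k3, k4⟩⟩
  · intro p _ _
    positivity

end SelK

/-- Sieve weights coprime to `k`. -/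
structure Wt (b : ℕ → ℝ) (k T : ℕ) : Prop where
  one : b 1 = 1
  cop : ∀ d ∈ Icc 1 T, b d ≠ 0 → d.Coprime k
  bb : BB b T ≤ (T : ℝ) ^ 3
  qq : 0 ≤ QQ b T

open SelK in
/-- SELK. Selberg weights supported on divisors coprime to `k`. -/
theorem selk (k T : ℕ) (hk : 1 ≤ k) (hT : 2 ≤ T) :
    ∃ b : ℕ → ℝ, Wt b k T ∧ QQ b T ≤ 2 * ((k : ℝ) / k.totient) / Real.log T := by
  have hG := gk_ge_one k T (by omega)
  have hG0 : 0 < gk k T 1 := by linarith
  have hQ : QQ (fun d => bbk k T d / gk k T 1) T = 1 / gk k T 1 := by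
    have h1 : QQ (fun d => bbk k T d / gk k T 1) T = QQ (bbk k T) T / gk k T 1 ^ 2 := by
      unfold QQ
      rw [sum_div]
      apply sum_congr rfl
      intro d _
      rw [sum_div]
      apply sum_congr rfl
      intro e _
      field_simp
    rw [h1, QQ_eqk]
    field_simp
  refine ⟨fun d => bbk k T d / gk k T 1, ⟨?_, ?_, ?_, ?_⟩, ?_⟩
  · show bbk k T 1 / gk k T 1 = 1
    have h1 : bbk k T 1 = gk k T 1 := by
      unfold bbk muk
      rw [if_pos (Nat.coprime_one_left k), SelAux.mu_one]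
      push_cast
      ring
    rw [h1, div_self hG0.ne']
  · intro d _ hd
    by_contra hc
    apply hd
    show bbk k T d / gk k T 1 = 0
    unfold bbk muk
    rw [if_neg hc]
    ring
  · have h1 : BB (fun d => bbk k T d / gk k T 1) T = BB (bbk k T) T / gk k T 1 := by
      unfold BB
      rw [sum_div]
      apply sum_congr rfl
      intro d _
      rw [abs_div, abs_of_pos hG0]
    rw [h1, div_le_iff₀ hG0]
    have h2 := BB_lek k T
    have h3 : (0 : ℝ) ≤ (T : ℝ) ^ 3 := by positivity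
    nlinarith
  · rw [hQ]
    positivity
  · rw [hQ]
    have h1 := SelAux.L_ge T
    have h2 := g_le_gk k T hk
    have hlog : 0 < Real.log T := Real.log_pos (by exact_mod_cast (show 1 < T by omega))
    rw [div_le_div_iff₀ hG0 hlog]
    nlinarith

end

end Pool.Agent.C497.Sel
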