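import Pool.Agent.Lib.MP_c497bd_nt.EW.Defs
import Pool.Agent.Lib.MP_c497bd_nt.EW.Selk

/-!
# MP_c497bd, divisors `p - 1`: primes in a residue class of a fixed modulus, upper bound
-/

namespace Pool.Agent.C497

open Finset Pool.Agent.M848

private lemma bt_count (x r v : ℕ) (hr : 0 < r) :
    |(((Finset.Icc 1 x).filter (fun n => n ≡ v [MOD r])).card : ℝ) - (x : ℝ) / r| ≤ 1 := by
  have h1 : (Finset.Icc 1 x).filter (fun n => n ≡ v [MOD r]) =
      (Finset.Ioc 0 x).filter (fun n => n ≡ v [MOD r]) := by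
    congr 1
  have h2 := Nat.Ioc_filter_modEq_card 0 x hr v
  rw [h1]
  set N := ((Finset.Ioc 0 x).filter (fun n => n ≡ v [MOD r])).card with hN
  set A : ℤ := ⌊((x : ℚ) - v) / (r : ℚ)⌋ with hA
  set B : ℤ := ⌊(((0 : ℕ) : ℚ) - v) / (r : ℚ)⌋ with hB
  have hrq : (0 : ℚ) < r := by exact_mod_cast hr
  have a1 : (A : ℚ) ≤ ((x : ℚ) - v) / r := Int.floor_le _
  have a2 : ((x : ℚ) - v) / r < A + 1 := Int.lt_floor_add_one _
  have b1 : (B : ℚ) ≤ (((0 : ℕ) : ℚ) - v) / r := Int.floor_le _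
  have b2 : (((0 : ℕ) : ℚ) - v) / r < B + 1 := Int.lt_floor_add_one _
  have hBA : B ≤ A := by
    apply Int.floor_le_floor
    apply div_le_div_of_nonneg_right _ hrq.le
    have : (0 : ℚ) ≤ x := by positivity
    push_cast
    linarith
  have h3 : (N : ℤ) = A - B := by
    rw [h2]
    exact max_eq_left (by linarith)
  have h4 : (N : ℚ) = A - B := by exact_mod_cast h3
  have e1 : ((x : ℚ) - v) / r - (((0 : ℕ) : ℚ) - v) / r = (x : ℚ) / r := by
    push_cast
    field_simp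
    ring
  have h5 : |(N : ℚ) - (x : ℚ) / r| ≤ 1 := by
    rw [abs_le]
    constructor <;> linarith
  have h6 : ((|(N : ℚ) - (x : ℚ) / r| : ℚ) : ℝ) ≤ ((1 : ℚ) : ℝ) := Rat.cast_le.2 h5
  push_cast at h6
  exact h6

private lemma bt_pair (x W c d e : ℕ) (hW : 0 < W) (hd : 0 < d) (he : 0 < e)
    (hdW : d.Coprime W) (heW : e.Coprime W) :
    |(((Finset.Icc 1 x).filter (fun n => n ≡ c [MOD W] ∧ d ∣ n ∧ e ∣ n)).card : ℝ) -
      (x : ℝ) / ((W : ℝ) * (Nat.lcm d e : ℝ))| ≤ 1 := by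
  have hL : (Nat.lcm d e).Coprime W :=
    Nat.Coprime.coprime_dvd_left (Nat.lcm_dvd_mul d e) (Nat.Coprime.mul_left hdW heW)
  have hLpos : 0 < Nat.lcm d e := Nat.lcm_pos hd he
  obtain ⟨a, ha1, ha2⟩ := Nat.chineseRemainder hL.symm c 0
  have h1 : (Finset.Icc 1 x).filter (fun n => n ≡ c [MOD W] ∧ d ∣ n ∧ e ∣ n) =
      (Finset.Icc 1 x).filter (fun n => n ≡ a [MOD W * Nat.lcm d e]) := by
    apply Finset.filter_congr
    intro n _
    rw [← Nat.modEq_and_modEq_iff_modEq_mul hL.symm]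
    constructor
    · rintro ⟨k1, k2, k3⟩
      refine ⟨k1.trans ha1.symm, ?_⟩
      exact ((Nat.modEq_zero_iff_dvd.2 (Nat.lcm_dvd k2 k3))).trans ha2.symm
    · rintro ⟨k1, k2⟩
      have k3 : Nat.lcm d e ∣ n := Nat.modEq_zero_iff_dvd.1 (k2.trans ha2)
      exact ⟨k1.trans ha1, (Nat.dvd_lcm_left d e).trans k3, (Nat.dvd_lcm_right d e).trans k3⟩
  rw [h1]
  have h2 := bt_count x (W * Nat.lcm d e) a (Nat.mul_pos hW hLpos)
  push_cast at h2
  exact h2

private lemma bt_sum (b : ℕ → ℝ) (x W T c : ℕ) (hW : 0 < W)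
    (hcop : ∀ d ∈ Finset.Icc 1 T, b d ≠ 0 → d.Coprime W) :
    ∑ n ∈ (Finset.Icc 1 x).filter (fun n => n ≡ c [MOD W]),
      (∑ d ∈ (Finset.Icc 1 T).filter (fun d => d ∣ n), b d) ^ 2 ≤
      (x : ℝ) / W * QQ b T + BB b T ^ 2 := by
  have h1 : ∀ n : ℕ, (∑ d ∈ (Finset.Icc 1 T).filter (fun d => d ∣ n), b d) ^ 2 =
      ∑ d ∈ Finset.Icc 1 T, ∑ e ∈ Finset.Icc 1 T,
        b d * b e * (if d ∣ n ∧ e ∣ n then (1 : ℝ) else 0) := by
    intro n
    rw [Finset.sum_filter, sq, Finset.sum_mul_sum]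
    apply Finset.sum_congr rfl
    intro d _
    apply Finset.sum_congr rfl
    intro e _
    by_cases k1 : d ∣ n <;> by_cases k2 : e ∣ n <;> simp [k1, k2]
  have h2 : ∑ n ∈ (Finset.Icc 1 x).filter (fun n => n ≡ c [MOD W]),
      (∑ d ∈ (Finset.Icc 1 T).filter (fun d => d ∣ n), b d) ^ 2 =
      ∑ d ∈ Finset.Icc 1 T, ∑ e ∈ Finset.Icc 1 T, b d * b e *
        (((Finset.Icc 1 x).filter (fun n => n ≡ c [MOD W] ∧ d ∣ n ∧ e ∣ n)).card : ℝ) := by
    rw [Finset.sum_congr rfl (fun n _ => h1 n), Finset.sum_comm]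
    apply Finset.sum_congr rfl
    intro d _
    rw [Finset.sum_comm]
    apply Finset.sum_congr rfl
    intro e _
    rw [← Finset.mul_sum]
    congr 1
    rw [← Finset.sum_filter, Finset.filter_filter, Finset.sum_const, nsmul_eq_mul, mul_one]
  have h3 : ∀ d ∈ Finset.Icc 1 T, ∀ e ∈ Finset.Icc 1 T, b d * b e *
        (((Finset.Icc 1 x).filter (fun n => n ≡ c [MOD W] ∧ d ∣ n ∧ e ∣ n)).card : ℝ) ≤
        (x : ℝ) / W * (b d * b e / (Nat.lcm d e : ℝ)) + |b d| * |b e| := by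
    intro d hd e he
    by_cases k1 : b d = 0
    · rw [k1]
      simp
    by_cases k2 : b e = 0
    · rw [k2]
      simp
    have hd1 := (Finset.mem_Icc.1 hd).1
    have he1 := (Finset.mem_Icc.1 he).1
    have h4 := bt_pair x W c d e hW hd1 he1 (hcop d hd k1) (hcop e he k2)
    set M := (((Finset.Icc 1 x).filter (fun n => n ≡ c [MOD W] ∧ d ∣ n ∧ e ∣ n)).card : ℝ)
    have h5 : b d * b e * (M - (x : ℝ) / ((W : ℝ) * (Nat.lcm d e : ℝ))) ≤ |b d| * |b e| := by
      calc b d * b e * (M - (x : ℝ) / ((W : ℝ) * (Nat.lcm d e : ℝ)))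
          ≤ |b d * b e * (M - (x : ℝ) / ((W : ℝ) * (Nat.lcm d e : ℝ)))| := le_abs_self _
        _ = |b d| * |b e| * |M - (x : ℝ) / ((W : ℝ) * (Nat.lcm d e : ℝ))| := by
            rw [abs_mul, abs_mul]
        _ ≤ |b d| * |b e| * 1 := mul_le_mul_of_nonneg_left h4 (by positivity)
        _ = |b d| * |b e| := mul_one _
    have h6 : (x : ℝ) / W * (b d * b e / (Nat.lcm d e : ℝ)) =
        b d * b e * ((x : ℝ) / ((W : ℝ) * (Nat.lcm d e : ℝ))) := by
      rw [div_mul_div_comm, mul_comm (x : ℝ) (b d * b e), mul_div_assoc]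
    rw [h6]
    linarith
  rw [h2]
  calc _ ≤ ∑ d ∈ Finset.Icc 1 T, ∑ e ∈ Finset.Icc 1 T,
        ((x : ℝ) / W * (b d * b e / (Nat.lcm d e : ℝ)) + |b d| * |b e|) :=
        Finset.sum_le_sum fun d hd => Finset.sum_le_sum fun e he => h3 d hd e he
    _ = (x : ℝ) / W * QQ b T + BB b T ^ 2 := by
        unfold QQ BB
        rw [sq, Finset.sum_mul_sum, Finset.mul_sum, ← Finset.sum_add_distrib]
        apply Finset.sum_congr rfl
        intro d _
        rw [Finset.mul_sum, ← Finset.sum_add_distrib]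

private lemma bt_prime (b : ℕ → ℝ) (T p : ℕ) (hT : 1 ≤ T) (hb : b 1 = 1) (hp : p.Prime)
    (hTp : T < p) : (∑ d ∈ (Finset.Icc 1 T).filter (fun d => d ∣ p), b d) ^ 2 = 1 := by
  have h1 : (Finset.Icc 1 T).filter (fun d => d ∣ p) = {1} := by
    ext d
    rw [Finset.mem_filter, Finset.mem_Icc, Finset.mem_singleton]
    constructor
    · rintro ⟨⟨k1, k2⟩, k3⟩
      rcases (Nat.dvd_prime hp).1 k3 with k | k
      · exact k
      · omega
    · intro k
      rw [k]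
      exact ⟨⟨le_refl _, hT⟩, one_dvd _⟩
  rw [h1, Finset.sum_singleton, hb, one_pow]

private lemma bt_card (b : ℕ → ℝ) (x W T c : ℕ) (hT : 1 ≤ T) (hb : b 1 = 1) :
    (((Finset.Icc 1 x).filter (fun p => p.Prime ∧ p ≡ c [MOD W])).card : ℝ) ≤
      T + ∑ n ∈ (Finset.Icc 1 x).filter (fun n => n ≡ c [MOD W]),
        (∑ d ∈ (Finset.Icc 1 T).filter (fun d => d ∣ n), b d) ^ 2 := by
  have h1 : (Finset.Icc 1 x).filter (fun p => p.Prime ∧ p ≡ c [MOD W]) ⊆
      Finset.Icc 1 T ∪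
        ((Finset.Icc 1 x).filter (fun p => p ≡ c [MOD W])).filter
          (fun p => p.Prime ∧ T < p) := by
    intro p hp
    rw [Finset.mem_filter, Finset.mem_Icc] at hp
    rw [Finset.mem_union, Finset.mem_filter, Finset.mem_filter, Finset.mem_Icc, Finset.mem_Icc]
    rcases le_or_gt p T with k | k
    · exact Or.inl ⟨hp.1.1, k⟩
    · exact Or.inr ⟨⟨hp.1, hp.2.2⟩, hp.2.1, k⟩
  have h2 := (Finset.card_le_card h1).trans (Finset.card_union_le _ _)
  rw [Nat.card_Icc, Nat.add_sub_cancel] at h2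
  have h3 : ((((Finset.Icc 1 x).filter (fun p => p ≡ c [MOD W])).filter
          (fun p => p.Prime ∧ T < p)).card : ℝ) ≤
      ∑ n ∈ (Finset.Icc 1 x).filter (fun n => n ≡ c [MOD W]),
        (∑ d ∈ (Finset.Icc 1 T).filter (fun d => d ∣ n), b d) ^ 2 := by
    calc ((((Finset.Icc 1 x).filter (fun p => p ≡ c [MOD W])).filter
          (fun p => p.Prime ∧ T < p)).card : ℝ)
        = ∑ n ∈ ((Finset.Icc 1 x).filter (fun p => p ≡ c [MOD W])).filter
          (fun p => p.Prime ∧ T < p),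
          (∑ d ∈ (Finset.Icc 1 T).filter (fun d => d ∣ n), b d) ^ 2 := by
          rw [Finset.sum_congr rfl (fun n hn => bt_prime b T n hT hb
            (Finset.mem_filter.1 hn).2.1 (Finset.mem_filter.1 hn).2.2)]
          rw [Finset.sum_const, nsmul_eq_mul, mul_one]
      _ ≤ _ := Finset.sum_le_sum_of_subset_of_nonneg (Finset.filter_subset _ _)
          (fun n _ _ => sq_nonneg _)
  have h4 : (((Finset.Icc 1 x).filter (fun p => p.Prime ∧ p ≡ c [MOD W])).card : ℝ) ≤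
      (T : ℝ) + ((((Finset.Icc 1 x).filter (fun p => p ≡ c [MOD W])).filter
          (fun p => p.Prime ∧ T < p)).card : ℝ) := by
    exact_mod_cast h2
  linarith

/-- Proof (Selberg's sieve). Let `T = ⌊x ^ (1 / 12)⌋` and let `b` be the weights of
`Pool.Agent.C497.Sel.selk W T` (`EW/Selk.lean`; `Wt` is there, and `QQ`, `BB` are in
`Pool/Agent/Lib/MP_848d44_nt/Defs.lean`). If `p > T` is prime then `∑_{d ∣ p, d ≤ T} b d = b 1 = 1`.
So the number of the primes `T < p ≤ x` congruent to `c` modulo `W` is at most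
`∑_{n ≤ x, n ≡ c (W)} (∑_{d ∣ n, d ≤ T} b d) ^ 2
= ∑_{d, e ≤ T} b d * b e * #{n ≤ x : n ≡ c (W), lcm d e ∣ n}`. If `b d * b e ≠ 0` then `lcm d e` is
prime to `W` and the number is `x / (W * lcm d e)` up to an error `≤ 1`. So the sum is at most
`(x / W) * QQ b T + (BB b T) ^ 2 ≤ 2 x / (φ W * log T) + T ^ 6`, and there are at most `T` primes
`p ≤ T`. For large `x` (depending on `W`) `log T ≥ log x / 13` and
`T ^ 6 + T ≤ 2 √x ≤ x / (φ W * log x)`. -/
theorem bt_class : ∃ C : ℝ, 0 < C ∧ ∀ W : ℕ, 1 ≤ W → ∃ x₀ : ℕ, 2 ≤ x₀ ∧ ∀ x : ℕ, x₀ ≤ x →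
    ∀ c : ℕ, (((Finset.Icc 1 x).filter (fun p => p.Prime ∧ p ≡ c [MOD W])).card : ℝ) ≤
      C * x / (Nat.totient W * Real.log x) := by
  refine ⟨49, by norm_num, fun W hW => ⟨4096 * W ^ 4, ?_, ?_⟩⟩
  · have : 1 ≤ W ^ 4 := Nat.one_le_pow _ _ hW
    omega
  intro x hx c
  have hWr : (1 : ℝ) ≤ W := by exact_mod_cast hW
  have hW4 : (1 : ℝ) ≤ (W : ℝ) ^ 4 := one_le_pow₀ hWr
  have hxr : (4096 : ℝ) * (W : ℝ) ^ 4 ≤ x := by exact_mod_cast hx
  have hx1 : (4096 : ℝ) ≤ x := by nlinarith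
  have hx0 : (0 : ℝ) < x := by linarith
  -- the fourth root
  set s : ℝ := (x : ℝ) ^ (1 / 4 : ℝ) with hs
  have hs0 : 0 < s := Real.rpow_pos_of_pos hx0 _
  have hs4 : s ^ 4 = x := by
    rw [hs, ← Real.rpow_natCast, ← Real.rpow_mul hx0.le]
    norm_num
  have hs8 : 8 * (W : ℝ) ≤ s := by
    have h1 : (8 * (W : ℝ)) ^ 4 ≤ s ^ 4 := by
      rw [hs4]
      have : (8 * (W : ℝ)) ^ 4 = 4096 * (W : ℝ) ^ 4 := by ring
      linarith
    exact le_of_pow_le_pow_left₀ (by norm_num) hs0.le h1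
  have hlog : Real.log x ≤ 4 * s := by
    have h1 := Real.log_le_rpow_div hx0.le (show (0 : ℝ) < 1 / 4 by norm_num)
    rw [← hs] at h1
    linarith
  have hlog0 : 0 < Real.log x := Real.log_pos (by linarith)
  -- the level
  set u : ℝ := (x : ℝ) ^ (1 / 12 : ℝ) with hu
  have hu0 : 0 < u := Real.rpow_pos_of_pos hx0 _
  have hu12 : u ^ 12 = x := by
    rw [hu, ← Real.rpow_natCast, ← Real.rpow_mul hx0.le]
    norm_num
  have hu2 : 2 ≤ u := by
    have h1 : (2 : ℝ) ^ 12 ≤ u ^ 12 := by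
      rw [hu12]
      have h0 : (2 : ℝ) ^ 12 = 4096 := by norm_num
      rw [h0]
      exact hx1
    exact le_of_pow_le_pow_left₀ (by norm_num) hu0.le h1
  obtain ⟨T, hTdef⟩ : ∃ T : ℕ, T = ⌊u⌋₊ := ⟨_, rfl⟩
  have hT2 : 2 ≤ T := by
    rw [hTdef]
    exact Nat.le_floor (by exact_mod_cast hu2)
  have hTu : (T : ℝ) ≤ u := by
    rw [hTdef]
    exact Nat.floor_le hu0.le
  have huT : u < (T : ℝ) + 1 := by
    rw [hTdef]
    exact Nat.lt_floor_add_one u
  have hT2r : (2 : ℝ) ≤ T := by exact_mod_cast hT2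
  have hlogT0 : 0 < Real.log T := Real.log_pos (by linarith)
  have hlogT : Real.log x ≤ 24 * Real.log T := by
    have h1 : (x : ℝ) ≤ (T : ℝ) ^ 24 := by
      have h2 : u ≤ (T : ℝ) ^ 2 := by nlinarith
      calc (x : ℝ) = u ^ 12 := hu12.symm
        _ ≤ ((T : ℝ) ^ 2) ^ 12 := pow_le_pow_left₀ hu0.le h2 12
        _ = (T : ℝ) ^ 24 := by ring
    have h2 := Real.log_le_log hx0 h1
    rw [Real.log_pow] at h2
    exact_mod_cast h2
  have hT6 : (T : ℝ) ^ 6 ≤ s ^ 2 := by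
    have h1 : ((T : ℝ) ^ 6) ^ 2 ≤ (s ^ 2) ^ 2 := by
      have h2 : (T : ℝ) ^ 12 ≤ u ^ 12 := pow_le_pow_left₀ (by positivity) hTu 12
      have h3 : ((T : ℝ) ^ 6) ^ 2 = (T : ℝ) ^ 12 := by ring
      have h4 : (s ^ 2) ^ 2 = u ^ 12 := by
        rw [hu12, ← hs4]
        ring
      linarith
    exact le_of_pow_le_pow_left₀ (by norm_num) (by positivity) h1
  have hTT6 : (T : ℝ) ≤ (T : ℝ) ^ 6 := le_self_pow₀ (by linarith) (by norm_num)
  obtain ⟨b, hb, hQ⟩ := Sel.selk W T hW hT2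
  have hφ : 0 < Nat.totient W := Nat.totient_pos.2 hW
  have hφr : (0 : ℝ) < Nat.totient W := by exact_mod_cast hφ
  have hφW : ((Nat.totient W : ℕ) : ℝ) ≤ W := by exact_mod_cast Nat.totient_le W
  have h1 := bt_card b x W T c (by omega) hb.one
  have h2 := bt_sum b x W T c hW hb.cop
  have h3 : BB b T ^ 2 ≤ (T : ℝ) ^ 6 := by
    have h0 : 0 ≤ BB b T := Finset.sum_nonneg fun _ _ => abs_nonneg _
    calc BB b T ^ 2 ≤ ((T : ℝ) ^ 3) ^ 2 := pow_le_pow_left₀ h0 hb.bb 2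
      _ = (T : ℝ) ^ 6 := by ring
  have h4 : (x : ℝ) / W * QQ b T ≤ 48 * x / (Nat.totient W * Real.log x) := by
    calc (x : ℝ) / W * QQ b T
        ≤ (x : ℝ) / W * (2 * ((W : ℝ) / Nat.totient W) / Real.log T) :=
          mul_le_mul_of_nonneg_left hQ (by positivity)
      _ = 2 * x / (Nat.totient W * Real.log T) := by
          field_simp
      _ ≤ 48 * x / (Nat.totient W * Real.log x) := by
          rw [div_le_div_iff₀ (by positivity) (by positivity)]
          have h5 : Nat.totient W * (x : ℝ) * Real.log x ≤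
              Nat.totient W * (x : ℝ) * (24 * Real.log T) :=
            mul_le_mul_of_nonneg_left hlogT (by positivity)
          nlinarith
  have h5 : (T : ℝ) + (T : ℝ) ^ 6 ≤ x / (Nat.totient W * Real.log x) := by
    rw [le_div_iff₀ (by positivity)]
    calc ((T : ℝ) + (T : ℝ) ^ 6) * (Nat.totient W * Real.log x)
        ≤ (2 * s ^ 2) * (W * (4 * s)) := by
          apply mul_le_mul (by linarith) _ (by positivity) (by positivity)
          exact mul_le_mul hφW hlog hlog0.le (by positivity)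
      _ = s ^ 3 * (8 * W) := by ring
      _ ≤ s ^ 3 * s := mul_le_mul_of_nonneg_left hs8 (by positivity)
      _ = x := by
          rw [← hs4]
          ring
  have h6 : (49 : ℝ) * x / (Nat.totient W * Real.log x) =
      48 * x / (Nat.totient W * Real.log x) + x / (Nat.totient W * Real.log x) := by
    rw [← add_div]
    congr 1
    ring
  rw [h6]
  linarith

end Pool.Agent.C497
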