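import Pool.Agent.Lib.MP_c497bd_nt.EW.Defs

/-!
# MP_c497bd, divisors `p - 1`: the mean value over the residue classes
-/

namespace Pool.Agent.C497

/-- The local weight at `q`. -/
private noncomputable def gq (q c d : ℕ) : ℝ :=
  if q ∣ c then 0 else if c % q = 1 ∨ q ∣ d then 3 / 4 else 1

private lemma gq_mod (q c d : ℕ) : gq q (c % q) (d % q) = gq q c d := by
  unfold gq
  have h1 : q ∣ c % q ↔ q ∣ c := by
    rw [Nat.dvd_iff_mod_eq_zero, Nat.dvd_iff_mod_eq_zero, Nat.mod_mod]
  have h2 : q ∣ d % q ↔ q ∣ d := by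
    rw [Nat.dvd_iff_mod_eq_zero, Nat.dvd_iff_mod_eq_zero, Nat.mod_mod]
  simp only [h1, h2, Nat.mod_mod]

private lemma gq_mod_mul {q P : ℕ} (h : q ∣ P) (c d : ℕ) :
    gq q (c % P) (d % P) = gq q c d := by
  rw [← gq_mod q (c % P) (d % P), ← gq_mod q c d, Nat.mod_mod_of_dvd c h, Nat.mod_mod_of_dvd d h]

private lemma sum_crt {M q : ℕ} (h : M.Coprime q) (hM : 0 < M) (hq : 0 < q) (f : ℕ → ℕ → ℝ) :
    ∑ n ∈ Finset.range (M * q), f (n % M) (n % q) =
      ∑ a ∈ Finset.range M, ∑ b ∈ Finset.range q, f a b := by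
  rw [← Finset.sum_product']
  refine Finset.sum_nbij' (fun n => (n % M, n % q))
    (fun x => (Nat.chineseRemainder h x.1 x.2 : ℕ)) ?_ ?_ ?_ ?_ ?_
  · intro n _
    rw [Finset.mem_product, Finset.mem_range, Finset.mem_range]
    exact ⟨Nat.mod_lt _ hM, Nat.mod_lt _ hq⟩
  · intro x _
    exact Finset.mem_range.2 (Nat.chineseRemainder_lt_mul h x.1 x.2 hM.ne' hq.ne')
  · intro n hn
    have h1 : n ≡ Nat.chineseRemainder h (n % M) (n % q) [MOD M * q] :=
      Nat.chineseRemainder_modEq_unique h (Nat.mod_modEq n M).symm (Nat.mod_modEq n q).symm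
    have h2 := Nat.chineseRemainder_lt_mul h (n % M) (n % q) hM.ne' hq.ne'
    exact (Nat.ModEq.eq_of_lt_of_lt h1 (Finset.mem_range.1 hn) h2).symm
  · intro x hx
    rw [Finset.mem_product, Finset.mem_range, Finset.mem_range] at hx
    have h1 := (Nat.chineseRemainder h x.1 x.2).2
    refine Prod.ext ?_ ?_
    · have := h1.1
      unfold Nat.ModEq at this
      simp only
      rw [this, Nat.mod_eq_of_lt hx.1]
    · have := h1.2
      unfold Nat.ModEq at this
      simp only
      rw [this, Nat.mod_eq_of_lt hx.2]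
  · intro n _
    rfl

private lemma sum_gq {q : ℕ} (hq : q.Prime) :
    ∑ c ∈ Finset.range q, ∑ d ∈ Finset.range q, gq q c d =
      (((q - 1 : ℕ) : ℝ) * q) * (1 - 1 / (2 * (q : ℝ))) := by
  obtain ⟨k, rfl⟩ : ∃ k, q = k + 2 := ⟨q - 2, by have := hq.two_le; omega⟩
  rw [Finset.sum_range_succ', Finset.sum_range_succ']
  have h0 : ∑ d ∈ Finset.range (k + 2), gq (k + 2) 0 d = 0 := by
    refine Finset.sum_eq_zero fun d _ => ?_
    unfold gq
    rw [if_pos (dvd_zero _)]
  have h1 : ∑ d ∈ Finset.range (k + 2), gq (k + 2) (0 + 1) d = (k + 2) * (3 / 4) := by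
    have : ∀ d ∈ Finset.range (k + 2), gq (k + 2) (0 + 1) d = 3 / 4 := by
      intro d _
      unfold gq
      rw [if_neg, if_pos]
      · left
        exact Nat.mod_eq_of_lt (by omega)
      · intro h
        have := Nat.le_of_dvd (by omega) h
        omega
    rw [Finset.sum_congr rfl this, Finset.sum_const, Finset.card_range, nsmul_eq_mul]
    push_cast
    ring
  have h2 : ∀ c ∈ Finset.range k, ∑ d ∈ Finset.range (k + 2), gq (k + 2) (c + 1 + 1) d =
      (k + 1) + 3 / 4 := by
    intro c hc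
    have hck := Finset.mem_range.1 hc
    have hn : ¬ (k + 2) ∣ (c + 1 + 1) := by
      intro h
      have := Nat.le_of_dvd (by omega) h
      omega
    rw [Finset.sum_range_succ']
    have e1 : ∀ d ∈ Finset.range (k + 1), gq (k + 2) (c + 1 + 1) (d + 1) = 1 := by
      intro d hd
      have hdk := Finset.mem_range.1 hd
      unfold gq
      rw [if_neg hn, if_neg]
      rintro (h | h)
      · rw [Nat.mod_eq_of_lt (by omega)] at h
        omega
      · have := Nat.le_of_dvd (by omega) h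
        omega
    have e2 : gq (k + 2) (c + 1 + 1) 0 = 3 / 4 := by
      unfold gq
      rw [if_neg hn, if_pos (Or.inr (dvd_zero _))]
    rw [Finset.sum_congr rfl e1, e2, Finset.sum_const, Finset.card_range, nsmul_eq_mul]
    push_cast
    ring
  rw [h0, h1, Finset.sum_congr rfl h2, Finset.sum_const, Finset.card_range, nsmul_eq_mul]
  have hk : ((k : ℝ) + 2) ≠ 0 := by positivity
  have e3 : (k + 2 - 1 : ℕ) = k + 1 := by omega
  rw [e3]
  push_cast
  field_simp
  ring

private lemma sum_prod (s : Finset ℕ) : (∀ q ∈ s, Nat.Prime q) →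
    ∑ c ∈ Finset.range (∏ q ∈ s, q), ∑ d ∈ Finset.range (∏ q ∈ s, q), ∏ q ∈ s, gq q c d =
      ((Nat.totient (∏ q ∈ s, q) : ℝ) * ((∏ q ∈ s, q : ℕ) : ℝ)) *
        ∏ q ∈ s, (1 - 1 / (2 * (q : ℝ))) := by
  classical
  induction s using Finset.induction_on with
  | empty => intro _; simp
  | insert r s hr ih =>
    intro hs
    have hrp : r.Prime := hs r (Finset.mem_insert_self r s)
    have hs' : ∀ q ∈ s, Nat.Prime q := fun q hq => hs q (Finset.mem_insert_of_mem hq)
    have ih' := ih hs'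
    have hco : r.Coprime (∏ q ∈ s, q) := by
      refine Nat.Coprime.prod_right fun q hq => ?_
      rw [Nat.coprime_primes hrp (hs' q hq)]
      rintro rfl
      exact hr hq
    have hP : 0 < ∏ q ∈ s, q := Finset.prod_pos fun q hq => (hs' q hq).pos
    have e1 : ∀ c d : ℕ, ∏ q ∈ insert r s, gq q c d =
        gq r (c % r) (d % r) *
          ∏ q ∈ s, gq q (c % ∏ q ∈ s, q) (d % ∏ q ∈ s, q) := by
      intro c d
      rw [Finset.prod_insert hr, gq_mod]
      congr 1
      refine Finset.prod_congr rfl fun q hq => ?_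
      exact (gq_mod_mul (Finset.dvd_prod_of_mem (fun q => q) hq) c d).symm
    simp only [e1]
    rw [Finset.prod_insert hr, Finset.prod_insert hr, Nat.totient_mul hco, Nat.totient_prime hrp]
    set P := ∏ q ∈ s, q with hPdef
    have e2 : ∀ c : ℕ, ∑ d ∈ Finset.range (r * P), gq r (c % r) (d % r) *
        ∏ q ∈ s, gq q (c % P) (d % P) =
        ∑ a ∈ Finset.range r, ∑ b ∈ Finset.range P, gq r (c % r) a * ∏ q ∈ s, gq q (c % P) b :=
      fun c => sum_crt hco hrp.pos hP
        (fun a b => gq r (c % r) a * ∏ q ∈ s, gq q (c % P) b)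
    simp only [e2]
    rw [sum_crt hco hrp.pos hP (fun a' b' => ∑ a ∈ Finset.range r, ∑ b ∈ Finset.range P,
      gq r a' a * ∏ q ∈ s, gq q b' b)]
    have e3 : ∑ a' ∈ Finset.range r, ∑ b' ∈ Finset.range P, ∑ a ∈ Finset.range r,
        ∑ b ∈ Finset.range P, gq r a' a * ∏ q ∈ s, gq q b' b =
        (∑ a' ∈ Finset.range r, ∑ a ∈ Finset.range r, gq r a' a) *
          (∑ b' ∈ Finset.range P, ∑ b ∈ Finset.range P, ∏ q ∈ s, gq q b' b) := by
      rw [Finset.sum_mul_sum]
      refine Finset.sum_congr rfl fun a' _ => Finset.sum_congr rfl fun b' _ => ?_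
      rw [Finset.sum_mul_sum]
    rw [e3, sum_gq hrp, ih']
    push_cast
    ring

/-- Proof. Chinese remainder theorem, e.g. induction on the finite set of primes (or
`ZMod.prodEquivPi` and `Finset.prod_univ_sum`): with `g q (c, d) = 0` if `q ∣ c`, `3 / 4` if `q ∤ c`
and `q ∣ (c - 1) d`, and `1` otherwise, the left side is `∏_q ∑_{c, d < q} g q (c, d)`. For a prime
`q` there are `(q - 1) q` pairs with `q ∤ c`, and `q ∣ (c - 1) d` holds for `c = 1` (`q` pairs) and for
`c ≠ 1`, `d = 0` (`q - 2` pairs), altogether `2 (q - 1)`; so the sum is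
`(q - 1) q - (1 / 4) 2 (q - 1) = (q - 1) q (1 - 1 / (2 q))`. (For `w < 2` the product is empty,
`Wd w = 1`, and both sides are `1`.) -/
theorem crt_sum (w : ℕ) : ∑ c ∈ (Finset.range (Wd w)).filter (fun c => c.Coprime (Wd w)),
    ∑ d ∈ Finset.range (Wd w), ((3 : ℝ) / 4) ^ om w ((c - 1) * d) =
      (Nat.totient (Wd w) * Wd w) * ∏ q ∈ PW w, (1 - 1 / (2 * (q : ℝ))) := by
  have key := sum_prod (PW w) (fun q hq => prime_of_mem_PW hq)
  change ∑ c ∈ Finset.range (Wd w), ∑ d ∈ Finset.range (Wd w), ∏ q ∈ PW w, gq q c d =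
    (Nat.totient (Wd w) * Wd w) * ∏ q ∈ PW w, (1 - 1 / (2 * (q : ℝ))) at key
  rw [← key, Finset.sum_filter]
  refine Finset.sum_congr rfl fun c _ => ?_
  split_ifs with hc
  · refine Finset.sum_congr rfl fun d _ => ?_
    have e1 : ∀ q ∈ PW w, gq q c d = if q ∣ (c - 1) * d then (3 / 4 : ℝ) else 1 := by
      intro q hq
      have hqp := prime_of_mem_PW hq
      have hqW : q ∣ Wd w := Finset.dvd_prod_of_mem _ hq
      have hqc : ¬ q ∣ c := fun h => by
        have := Nat.dvd_gcd h hqW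
        rw [Nat.Coprime] at hc
        rw [hc] at this
        exact hqp.one_lt.ne' (Nat.dvd_one.1 this)
      have hc1 : 1 ≤ c := by
        rcases Nat.eq_zero_or_pos c with h | h
        · exact absurd (h ▸ dvd_zero q) hqc
        · exact h
      have h1 : c % q = 1 ↔ q ∣ c - 1 := by
        rw [← Nat.modEq_iff_dvd' hc1]
        unfold Nat.ModEq
        rw [Nat.mod_eq_of_lt hqp.one_lt]
        exact eq_comm
      unfold gq
      rw [if_neg hqc]
      simp only [hqp.dvd_mul, h1]
    rw [Finset.prod_congr rfl e1, Finset.prod_ite, Finset.prod_const, Finset.prod_const_one,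
      mul_one]
    rfl
  · symm
    refine Finset.sum_eq_zero fun d _ => ?_
    obtain ⟨p, hp, hpc, hpW⟩ := Nat.Prime.not_coprime_iff_dvd.1 hc
    obtain ⟨q, hq, hpq⟩ := (Prime.dvd_finsetProd_iff hp.prime _).1 hpW
    have : p = q := (Nat.prime_dvd_prime_iff_eq hp (prime_of_mem_PW hq)).1 hpq
    subst this
    refine Finset.prod_eq_zero hq ?_
    unfold gq
    rw [if_pos hpc]

end Pool.Agent.C497
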