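import Mathlib

/-!
# MP_c497bd, divisors `p - 1` (Erdős and Wagstaff): definitions
-/

namespace Pool.Agent.C497

/-- The primes at most `w`. -/
def PW (w : ℕ) : Finset ℕ := (Finset.range (w + 1)).filter Nat.Prime

/-- The product of the primes at most `w`. -/
def Wd (w : ℕ) : ℕ := ∏ q ∈ PW w, q

/-- The number of the primes at most `w` dividing `n`. -/
def om (w n : ℕ) : ℕ := ((PW w).filter (fun q => q ∣ n)).card

theorem prime_of_mem_PW {w q : ℕ} (h : q ∈ PW w) : q.Prime := (Finset.mem_filter.1 h).2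

theorem le_of_mem_PW {w q : ℕ} (h : q ∈ PW w) : q ≤ w := by
  have := Finset.mem_range.1 (Finset.mem_filter.1 h).1
  omega

theorem Wd_pos (w : ℕ) : 0 < Wd w := Finset.prod_pos fun _ hq => (prime_of_mem_PW hq).pos

end Pool.Agent.C497
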