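import Mathlib

/-!
# MP_c497bd: multiples of `φ Q` for large proper prime powers `Q`
-/

namespace Pool.Agent.C497

private theorem pp_mult (D N : ℕ) (hD : 0 < D) :
    (((Finset.Icc 1 N).filter (fun K => D ∣ 2 * K)).card : ℝ) ≤ 2 * N / D := by
  have h1 : ((Finset.Icc 1 N).filter (fun K => D ∣ 2 * K)).card ≤
      ((Finset.Ioc 0 (2 * N)).filter (fun n => D ∣ n)).card := by
    apply Finset.card_le_card_of_injOn (fun K => 2 * K)
    · intro K hK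
      rw [Finset.mem_coe, Finset.mem_filter, Finset.mem_Icc] at hK
      rw [Finset.mem_coe, Finset.mem_filter, Finset.mem_Ioc]
      simp only
      exact ⟨⟨by omega, by omega⟩, hK.2⟩
    · intro a _ b _ h
      simp only at h
      omega
  rw [Nat.Ioc_filter_dvd_card_eq_div] at h1
  have hD' : (0 : ℝ) < D := by exact_mod_cast hD
  calc (((Finset.Icc 1 N).filter (fun K => D ∣ 2 * K)).card : ℝ) ≤ ((2 * N / D : ℕ) : ℝ) := by
        exact_mod_cast h1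
    _ ≤ ((2 * N : ℕ) : ℝ) / D := Nat.cast_div_le
    _ = 2 * N / D := by push_cast; ring

/-- the divisor attached to `s` and `t` -/
private def ppD (s : ℕ) (t : ℕ) : ℕ := Nat.totient (s ^ 2 * s.minFac ^ t)

private theorem pp_data {p a : ℕ} (hp : p.Prime) (ha : 2 ≤ a) : ∃ s t : ℕ, t < 2 ∧ 1 ≤ s ∧
    p ^ a = s ^ 2 * s.minFac ^ t ∧ p ^ a ≤ s ^ 3 ∧ s ^ 2 ≤ 2 * ppD s t := by
  refine ⟨p ^ (a / 2), a % 2, Nat.mod_lt _ (by norm_num), Nat.one_le_pow _ _ hp.pos, ?_⟩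
  have hb : a / 2 ≠ 0 := by omega
  have hmf : (p ^ (a / 2)).minFac = p := by
    rw [Nat.Prime.pow_minFac hp hb]
  have hQ : p ^ a = (p ^ (a / 2)) ^ 2 * (p ^ (a / 2)).minFac ^ (a % 2) := by
    rw [hmf, ← pow_mul, ← pow_add]
    congr 1
    omega
  have h2 := hp.two_le
  refine ⟨hQ, ?_, ?_⟩
  · rw [← pow_mul]
    apply Nat.pow_le_pow_right hp.pos
    omega
  · unfold ppD
    rw [← hQ]
    have h3 : Nat.totient (p ^ a) = p ^ (a - 1) * (p - 1) := Nat.totient_prime_pow hp (by omega)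
    have h4 : p ^ a = p ^ (a - 1) * p := by
      rw [← pow_succ]
      congr 1
      omega
    have h5 : p ^ a ≤ 2 * Nat.totient (p ^ a) := by
      rw [h3]
      calc p ^ a = p ^ (a - 1) * p := h4
        _ ≤ p ^ (a - 1) * (2 * (p - 1)) := Nat.mul_le_mul_left _ (by omega)
        _ = 2 * (p ^ (a - 1) * (p - 1)) := by ring
    refine le_trans ?_ h5
    rw [← pow_mul]
    apply Nat.pow_le_pow_right hp.pos
    omega

open Classical in
/-- Proof. Let `Q = p ^ a`, `a ≥ 2`, `s = p ^ (a / 2)`; then `Q = s ^ 2` or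
`Q = s ^ 2 p` with `p = s.minFac`, `Q ≤ s ^ 3`, so `N ≤ s ^ 30`, and
`φ Q ≥ Q / 2 ≥ s ^ 2 / 2`. For a given `Q` there are at most `2 N / φ Q ≤ 4 N / s ^ 2` such `K ≤ N`. So the
number is at most `∑_{s ≥ N ^ (1 / 30)} 8 N / s ^ 2`, which is small. -/
theorem proper_powers (δ : ℝ) (hδ : 0 < δ) : ∃ N₀ : ℕ, ∀ N : ℕ, N₀ ≤ N →
    (((Finset.Icc 1 N).filter (fun K => ∃ p a : ℕ, p.Prime ∧ 2 ≤ a ∧ N ≤ (p ^ a) ^ 10 ∧
      Nat.totient (p ^ a) ∣ 2 * K)).card : ℝ) ≤ δ * N := by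
  obtain ⟨S, hS⟩ := exists_nat_gt (16 / δ)
  have hS0 : (0 : ℝ) < S := lt_trans (by positivity) hS
  have hS1 : 0 < S := by exact_mod_cast hS0
  refine ⟨(S + 1) ^ 30, fun N hN => ?_⟩
  have hsub : (Finset.Icc 1 N).filter (fun K => ∃ p a : ℕ, p.Prime ∧ 2 ≤ a ∧
      N ≤ (p ^ a) ^ 10 ∧ Nat.totient (p ^ a) ∣ 2 * K) ⊆
      ((Finset.Ioo S (4 * N + 1)) ×ˢ Finset.range 2).biUnion (fun x =>
        (Finset.Icc 1 N).filter (fun K => x.1 ^ 2 ≤ 2 * ppD x.1 x.2 ∧ ppD x.1 x.2 ∣ 2 * K)) := by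
    intro K hK
    rw [Finset.mem_filter] at hK
    obtain ⟨hK1, p, a, hp, ha, hNp, hd⟩ := hK
    obtain ⟨s, t, ht, hs1, hst, hs3, hs2⟩ := pp_data hp ha
    rw [Finset.mem_biUnion]
    have hK1' := Finset.mem_Icc.1 hK1
    have hd' : ppD s t ∣ 2 * K := by
      unfold ppD
      rw [← hst]
      exact hd
    refine ⟨(s, t), ?_, ?_⟩
    · rw [Finset.mem_product, Finset.mem_Ioo, Finset.mem_range]
      refine ⟨⟨?_, ?_⟩, ht⟩
      · by_contra hcon
        have h1 : s ≤ S := not_lt.1 hcon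
        have h2 : N ≤ s ^ 30 := by
          calc N ≤ (p ^ a) ^ 10 := hNp
            _ ≤ (s ^ 3) ^ 10 := Nat.pow_le_pow_left hs3 10
            _ = s ^ 30 := by rw [← pow_mul]
        have h3 : s ^ 30 ≤ S ^ 30 := Nat.pow_le_pow_left h1 30
        have h4 : S ^ 30 < (S + 1) ^ 30 := Nat.pow_lt_pow_left (by omega) (by norm_num)
        omega
      · have h1 : ppD s t ≤ 2 * K := Nat.le_of_dvd (by omega) hd'
        have h2 : s ≤ s ^ 2 := by nlinarith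
        simp only
        omega
    · rw [Finset.mem_filter]
      exact ⟨hK1, hs2, hd'⟩
  have hone : ∀ x ∈ (Finset.Ioo S (4 * N + 1)) ×ˢ Finset.range 2,
      (((Finset.Icc 1 N).filter (fun K => x.1 ^ 2 ≤ 2 * ppD x.1 x.2 ∧ ppD x.1 x.2 ∣ 2 * K)).card
        : ℝ) ≤ 4 * N * ((x.1 : ℝ) ^ 2)⁻¹ := by
    intro x hx
    rw [Finset.mem_product, Finset.mem_Ioo] at hx
    have hx0 : 0 < x.1 := by omega
    have hxr : (0 : ℝ) < x.1 := by exact_mod_cast hx0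
    by_cases hc : x.1 ^ 2 ≤ 2 * ppD x.1 x.2
    · have hD : 0 < ppD x.1 x.2 := by
        have : 0 < x.1 ^ 2 := by positivity
        omega
      have h1 : (Finset.Icc 1 N).filter (fun K => x.1 ^ 2 ≤ 2 * ppD x.1 x.2 ∧
          ppD x.1 x.2 ∣ 2 * K) = (Finset.Icc 1 N).filter (fun K => ppD x.1 x.2 ∣ 2 * K) := by
        apply Finset.filter_congr
        intro K _
        exact ⟨fun h => h.2, fun h => ⟨hc, h⟩⟩
      rw [h1]
      refine (pp_mult _ N hD).trans ?_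
      have hDr : (0 : ℝ) < ppD x.1 x.2 := by exact_mod_cast hD
      have hcr : (x.1 : ℝ) ^ 2 ≤ 2 * ppD x.1 x.2 := by exact_mod_cast hc
      rw [← div_eq_mul_inv, div_le_div_iff₀ hDr (by positivity)]
      have hN0 : (0 : ℝ) ≤ N := by positivity
      nlinarith
    · have h1 : (Finset.Icc 1 N).filter (fun K => x.1 ^ 2 ≤ 2 * ppD x.1 x.2 ∧
          ppD x.1 x.2 ∣ 2 * K) = ∅ := by
        rw [Finset.filter_eq_empty_iff]
        intro K _ h
        exact hc h.1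
      rw [h1]
      simp only [Finset.card_empty, Nat.cast_zero]
      positivity
  have hcard : (((Finset.Icc 1 N).filter (fun K => ∃ p a : ℕ, p.Prime ∧ 2 ≤ a ∧
      N ≤ (p ^ a) ^ 10 ∧ Nat.totient (p ^ a) ∣ 2 * K)).card : ℝ) ≤
      ∑ x ∈ (Finset.Ioo S (4 * N + 1)) ×ˢ Finset.range 2, 4 * N * ((x.1 : ℝ) ^ 2)⁻¹ := by
    have h1 := (Finset.card_le_card hsub).trans Finset.card_biUnion_le
    have h2 : (((Finset.Icc 1 N).filter (fun K => ∃ p a : ℕ, p.Prime ∧ 2 ≤ a ∧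
      N ≤ (p ^ a) ^ 10 ∧ Nat.totient (p ^ a) ∣ 2 * K)).card : ℝ) ≤
      ∑ x ∈ (Finset.Ioo S (4 * N + 1)) ×ˢ Finset.range 2, (((Finset.Icc 1 N).filter
        (fun K => x.1 ^ 2 ≤ 2 * ppD x.1 x.2 ∧ ppD x.1 x.2 ∣ 2 * K)).card : ℝ) := by
      exact_mod_cast h1
    exact h2.trans (Finset.sum_le_sum hone)
  refine hcard.trans ?_
  rw [Finset.sum_product]
  simp only [Finset.sum_const, Finset.card_range, nsmul_eq_mul]
  have h3 := sum_Ioo_inv_sq_le (α := ℝ) S (4 * N + 1)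
  have h4 : ∑ x ∈ Finset.Ioo S (4 * N + 1), ((2 : ℕ) : ℝ) * (4 * N * ((x : ℝ) ^ 2)⁻¹) =
      8 * N * ∑ x ∈ Finset.Ioo S (4 * N + 1), ((x : ℝ) ^ 2)⁻¹ := by
    rw [Finset.mul_sum]
    apply Finset.sum_congr rfl
    intro x _
    push_cast
    ring
  rw [h4]
  have h5 : 2 / ((S : ℝ) + 1) ≤ δ / 8 := by
    rw [div_le_div_iff₀ (by positivity) (by norm_num)]
    have h6 : 16 < δ * S := by
      rw [div_lt_iff₀ hδ] at hS
      linarith
    nlinarith
  have hN0 : (0 : ℝ) ≤ N := by positivity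
  calc 8 * (N : ℝ) * ∑ x ∈ Finset.Ioo S (4 * N + 1), ((x : ℝ) ^ 2)⁻¹
      ≤ 8 * N * (δ / 8) := by
        apply mul_le_mul_of_nonneg_left (h3.trans h5)
        positivity
    _ = δ * N := by ring

end Pool.Agent.C497
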