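import Pool.Agent.Lib.MP_c497bd_nt.EW.Ew
import Pool.Agent.Lib.MP_c497bd_nt.EW.PropP

/-!
# MP_c497bd: multiples of `φ Q` for large prime powers `Q`
-/

namespace Pool.Agent.C497

open Filter Topology

/-- Proof. For large `N` the `K ≤ N` of `S` with `K ≤ √N` or `K < k₀` are at most `δ N / 3` many.
For the others `N < K ^ 2 ≤ Q ^ 10`. If `Q` is prime use `ew`, otherwise `proper_powers`. -/
theorem density_primePow (S : Set ℕ) (k₀ : ℕ) (hS : ∀ K ∈ S, k₀ ≤ K → ∃ Q : ℕ, IsPrimePow Q ∧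
    K ≤ Q ^ 5 ∧ Nat.totient Q ∣ 2 * K) :
    Tendsto (fun N : ℕ => ((S ∩ Set.Icc 1 N).ncard : ℝ) / N) atTop (𝓝 0) := by
  classical
  rw [Metric.tendsto_atTop]
  intro δ hδ
  obtain ⟨N₁, h₁⟩ := ew (δ / 4) (by positivity)
  obtain ⟨N₂, h₂⟩ := proper_powers (δ / 4) (by positivity)
  obtain ⟨M, hM⟩ := exists_nat_gt (8 / δ)
  refine ⟨N₁ + N₂ + (M + k₀ + 1) * (M + k₀ + 1), fun N hN => ?_⟩
  have hN0 : 0 < N := by nlinarith
  have hNR : (0 : ℝ) < N := by exact_mod_cast hN0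
  have hsM : M + k₀ + 1 ≤ Nat.sqrt N := Nat.le_sqrt.2 (by nlinarith)
  have hsN : Nat.sqrt N * Nat.sqrt N ≤ N := Nat.sqrt_le N
  have hsub : S ∩ Set.Icc 1 N ⊆ ((Finset.Icc 1 (k₀ + Nat.sqrt N) ∪
      ((Finset.Icc 1 N).filter (fun K => ∃ p ∈ Finset.range (2 * N + 2), p.Prime ∧ N ≤ p ^ 10 ∧
        (p - 1) ∣ 2 * K) ∪
      (Finset.Icc 1 N).filter (fun K => ∃ p a : ℕ, p.Prime ∧ 2 ≤ a ∧ N ≤ (p ^ a) ^ 10 ∧
        Nat.totient (p ^ a) ∣ 2 * K)) : Finset ℕ) : Set ℕ) := by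
    rintro K ⟨hKS, hK1, hKN⟩
    rw [Finset.mem_coe, Finset.mem_union, Finset.mem_union, Finset.mem_Icc, Finset.mem_filter,
      Finset.mem_filter, Finset.mem_Icc]
    by_cases hk : K ≤ k₀ + Nat.sqrt N
    · exact Or.inl ⟨hK1, hk⟩
    · right
      have hk0 : k₀ ≤ K := by omega
      have hKs : Nat.sqrt N < K := by omega
      have hNK : N < K * K := Nat.sqrt_lt.1 hKs
      obtain ⟨Q, hQ, hKQ, hdvd⟩ := hS K hKS hk0
      have hNQ : N ≤ Q ^ 10 := by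
        have h5 : K * K ≤ Q ^ 5 * Q ^ 5 := Nat.mul_le_mul hKQ hKQ
        have h6 : Q ^ 5 * Q ^ 5 = Q ^ 10 := by rw [← pow_add]
        omega
      obtain ⟨p, a, hp, ha, rfl⟩ := hQ
      have hpp : p.Prime := hp.nat_prime
      rcases Nat.lt_or_ge a 2 with ha2 | ha2
      · left
        have ha1 : a = 1 := by omega
        subst ha1
        rw [pow_one] at hNQ hdvd
        rw [Nat.totient_prime hpp] at hdvd
        have hle : p - 1 ≤ 2 * K := Nat.le_of_dvd (by omega) hdvd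
        exact ⟨⟨hK1, hKN⟩, p, Finset.mem_range.2 (by omega), hpp, hNQ, hdvd⟩
      · right
        exact ⟨⟨hK1, hKN⟩, p, a, hpp, ha2, hNQ, hdvd⟩
  have hcard := Set.ncard_le_ncard hsub (Finset.finite_toSet _)
  rw [Set.ncard_coe_finset] at hcard
  have hc1 := Finset.card_union_le (Finset.Icc 1 (k₀ + Nat.sqrt N))
    ((Finset.Icc 1 N).filter (fun K => ∃ p ∈ Finset.range (2 * N + 2), p.Prime ∧ N ≤ p ^ 10 ∧
        (p - 1) ∣ 2 * K) ∪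
      (Finset.Icc 1 N).filter (fun K => ∃ p a : ℕ, p.Prime ∧ 2 ≤ a ∧ N ≤ (p ^ a) ^ 10 ∧
        Nat.totient (p ^ a) ∣ 2 * K))
  have hc2 := Finset.card_union_le
    ((Finset.Icc 1 N).filter (fun K => ∃ p ∈ Finset.range (2 * N + 2), p.Prime ∧ N ≤ p ^ 10 ∧
        (p - 1) ∣ 2 * K))
    ((Finset.Icc 1 N).filter (fun K => ∃ p a : ℕ, p.Prime ∧ 2 ≤ a ∧ N ≤ (p ^ a) ^ 10 ∧
        Nat.totient (p ^ a) ∣ 2 * K))
  rw [Nat.card_Icc, Nat.add_sub_cancel] at hc1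
  have e₁ := h₁ N (by omega)
  have e₂ := h₂ N (by omega)
  have hall : ((S ∩ Set.Icc 1 N).ncard : ℝ) ≤ (k₀ + Nat.sqrt N : ℕ) +
      (((Finset.Icc 1 N).filter (fun K => ∃ p ∈ Finset.range (2 * N + 2), p.Prime ∧ N ≤ p ^ 10 ∧
        (p - 1) ∣ 2 * K)).card +
      ((Finset.Icc 1 N).filter (fun K => ∃ p a : ℕ, p.Prime ∧ 2 ≤ a ∧ N ≤ (p ^ a) ^ 10 ∧
        Nat.totient (p ^ a) ∣ 2 * K)).card) := by
    have := (hcard.trans hc1).trans (Nat.add_le_add_left hc2 _)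
    exact_mod_cast this
  have hM0 : 8 < M * δ := by rwa [div_lt_iff₀ hδ] at hM
  have hsR : ((Nat.sqrt N : ℕ) : ℝ) * (Nat.sqrt N : ℕ) ≤ N := by exact_mod_cast hsN
  have hMs : (M : ℝ) ≤ (Nat.sqrt N : ℕ) := by
    have : M ≤ Nat.sqrt N := by omega
    exact_mod_cast this
  have hks : (k₀ : ℝ) ≤ (Nat.sqrt N : ℕ) := by
    have : k₀ ≤ Nat.sqrt N := by omega
    exact_mod_cast this
  have hs0 : (0 : ℝ) < (Nat.sqrt N : ℕ) := by
    have : 0 < Nat.sqrt N := by omega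
    exact_mod_cast this
  have hsmall : ((k₀ + Nat.sqrt N : ℕ) : ℝ) ≤ δ / 4 * N := by
    push_cast
    have h7 : (8 : ℝ) ≤ (Nat.sqrt N : ℕ) * δ := by nlinarith
    have h8 : 8 * ((Nat.sqrt N : ℕ) : ℝ) ≤ δ * ((Nat.sqrt N : ℕ) * (Nat.sqrt N : ℕ)) := by
      nlinarith
    have h9 : δ * (((Nat.sqrt N : ℕ) : ℝ) * (Nat.sqrt N : ℕ)) ≤ δ * N :=
      mul_le_mul_of_nonneg_left hsR hδ.le
    linarith
  rw [Real.dist_eq, sub_zero, abs_of_nonneg (by positivity), div_lt_iff₀ hNR]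
  have hδN : 0 < δ * N := by positivity
  linarith

end Pool.Agent.C497
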