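import Pool.Agent.Lib.MP_c497bd_nt.EW.Defs

/-!
# MP_c497bd, divisors `p - 1`: numbers with many small prime divisors
-/

namespace Pool.Agent.C497

private theorem om_two_mul (w K : ℕ) : om w (2 * K) ≤ om w K + 1 := by
  classical
  unfold om
  have h1 : (PW w).filter (fun q => q ∣ 2 * K) ⊆
      insert 2 ((PW w).filter (fun q => q ∣ K)) := by
    intro q hq
    rw [Finset.mem_filter] at hq
    rw [Finset.mem_insert, Finset.mem_filter]
    rcases ((prime_of_mem_PW hq.1).dvd_mul).1 hq.2 with h | h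
    · left
      exact (Nat.prime_dvd_prime_iff_eq (prime_of_mem_PW hq.1) Nat.prime_two).1 h
    · exact Or.inr ⟨hq.1, h⟩
  exact (Finset.card_le_card h1).trans (Finset.card_insert_le _ _)

private theorem pow_om (w K : ℕ) : ((3 : ℝ) / 2) ^ om w K =
    ∑ D ∈ (PW w).powerset, ∏ q ∈ D, (if q ∣ K then (1 : ℝ) / 2 else 0) := by
  classical
  rw [← Finset.prod_one_add]
  have h1 : ∀ q ∈ PW w, (1 + (if q ∣ K then (1 : ℝ) / 2 else 0)) =
      (if q ∣ K then (3 : ℝ) / 2 else 1) := by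
    intro q _
    split_ifs <;> norm_num
  rw [Finset.prod_congr rfl h1, Finset.prod_ite, Finset.prod_const, Finset.prod_const_one,
    mul_one]
  rfl

private theorem sum_one (N : ℕ) {w : ℕ} {D : Finset ℕ} (hD : D ∈ (PW w).powerset) :
    ∑ K ∈ Finset.Icc 1 N, ∏ q ∈ D, (if q ∣ K then (1 : ℝ) / 2 else 0) ≤
      N * ∏ q ∈ D, (1 / (2 * (q : ℝ))) := by
  classical
  have hpr : ∀ q ∈ D, Nat.Prime q := fun q hq =>
    prime_of_mem_PW (Finset.mem_powerset.1 hD hq)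
  have h1 : ∀ K ∈ Finset.Icc 1 N, ∏ q ∈ D, (if q ∣ K then (1 : ℝ) / 2 else 0) ≤
      if (∏ q ∈ D, q) ∣ K then ∏ q ∈ D, ((1 : ℝ) / 2) else 0 := by
    intro K _
    by_cases hK : ∀ q ∈ D, q ∣ K
    · rw [if_pos (Finset.prod_primes_dvd K (fun a ha => (hpr a ha).prime) hK)]
      exact (Finset.prod_congr rfl fun q hq => if_pos (hK q hq)).le
    · push Not at hK
      obtain ⟨q, hq, hqK⟩ := hK
      rw [Finset.prod_eq_zero hq (if_neg hqK)]
      split_ifs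
      · positivity
      · exact le_refl _
  refine (Finset.sum_le_sum h1).trans ?_
  rw [← Finset.sum_filter, Finset.sum_const, nsmul_eq_mul]
  have h2 : (Finset.Icc 1 N).filter (fun K => (∏ q ∈ D, q) ∣ K) =
      (Finset.Ioc 0 N).filter (fun K => (∏ q ∈ D, q) ∣ K) := rfl
  rw [h2, Nat.Ioc_filter_dvd_card_eq_div]
  have h3 : ((N / ∏ q ∈ D, q : ℕ) : ℝ) ≤ (N : ℝ) / ((∏ q ∈ D, q : ℕ) : ℝ) := Nat.cast_div_le
  have h4 : (0 : ℝ) ≤ ∏ q ∈ D, ((1 : ℝ) / 2) := by positivity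
  refine (mul_le_mul_of_nonneg_right h3 h4).trans (le_of_eq ?_)
  have h5 : ∏ q ∈ D, (1 / (2 * (q : ℝ))) =
      (∏ q ∈ D, ((1 : ℝ) / 2)) * (∏ q ∈ D, (q : ℝ))⁻¹ := by
    rw [← Finset.prod_inv_distrib, ← Finset.prod_mul_distrib]
    refine Finset.prod_congr rfl fun q _ => ?_
    rw [one_div, one_div, mul_inv]
  rw [h5, Nat.cast_prod]
  ring

/-- Proof (Rankin). `om w (2 K) ≤ om w K + 1`, and
`(3 / 2) ^ om w K = ∑_{D ⊆ PW w, ∏ D ∣ K} (1 / 2) ^ |D|` (`Finset.prod_add` or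
`Finset.prod_one_add`). Sum over `K ≤ N`: at most `N ∑_{D ⊆ PW w} ∏_{q ∈ D} 1 / (2 q)
= N ∏_{q ∈ PW w} (1 + 1 / (2 q))`. -/
theorem many_omega (w N T : ℕ) :
    (((Finset.Icc 1 N).filter (fun K => T < om w (2 * K))).card : ℝ) ≤
      3 / 2 * (2 / 3) ^ T * N * ∏ q ∈ PW w, (1 + 1 / (2 * (q : ℝ))) := by
  classical
  have h1 : (((Finset.Icc 1 N).filter (fun K => T < om w (2 * K))).card : ℝ) ≤
      ∑ K ∈ Finset.Icc 1 N, ((2 : ℝ) / 3) ^ T * ((3 : ℝ) / 2) ^ om w K := by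
    rw [Finset.card_filter]
    push_cast
    refine Finset.sum_le_sum fun K _ => ?_
    split_ifs with h
    · have h2 : T ≤ om w K := by
        have := om_two_mul w K
        omega
      have h3 : ((3 : ℝ) / 2) ^ T ≤ ((3 : ℝ) / 2) ^ om w K :=
        pow_le_pow_right₀ (by norm_num) h2
      calc (1 : ℝ) = ((2 : ℝ) / 3) ^ T * ((3 : ℝ) / 2) ^ T := by
            rw [← mul_pow]; norm_num
        _ ≤ _ := mul_le_mul_of_nonneg_left h3 (by positivity)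
    · positivity
  have h4 : ∑ K ∈ Finset.Icc 1 N, ((3 : ℝ) / 2) ^ om w K ≤
      N * ∏ q ∈ PW w, (1 + 1 / (2 * (q : ℝ))) := by
    rw [Finset.sum_congr rfl fun K _ => pow_om w K, Finset.sum_comm, Finset.prod_one_add,
      Finset.mul_sum]
    exact Finset.sum_le_sum fun D hD => sum_one N hD
  rw [← Finset.mul_sum] at h1
  have h5 : (0 : ℝ) ≤ (2 / 3) ^ T * (N * ∏ q ∈ PW w, (1 + 1 / (2 * (q : ℝ)))) := by positivity
  have h6 := mul_le_mul_of_nonneg_left h4 (show (0 : ℝ) ≤ (2 / 3) ^ T by positivity)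
  calc _ ≤ _ := h1
    _ ≤ _ := h6
    _ ≤ _ := by
      have : 3 / 2 * (2 / 3) ^ T * (N : ℝ) * ∏ q ∈ PW w, (1 + 1 / (2 * (q : ℝ))) =
          3 / 2 * ((2 / 3) ^ T * (N * ∏ q ∈ PW w, (1 + 1 / (2 * (q : ℝ))))) := by ring
      rw [this]
      linarith

end Pool.Agent.C497
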