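import Pool.Agent.Lib.MP_c497bd_nt.EW.FewO
import Pool.Agent.Lib.MP_c497bd_nt.EW.ManyO
import Pool.Agent.Lib.MP_6396c4_an.PrimeCount

/-!
# MP_c497bd, divisors `p - 1`: the theorem of Erdős and Wagstaff
-/

namespace Pool.Agent.C497

private lemma ew_pr (w : ℕ) : Pool.Agent.MP6396c4.pr w = PW w := by
  ext q
  rw [Pool.Agent.MP6396c4.mem_pr, PW, Finset.mem_filter, Finset.mem_range]
  constructor
  · rintro ⟨h, h2⟩; exact ⟨by omega, h⟩
  · rintro ⟨h, h2⟩; exact ⟨h2, by omega⟩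

private lemma ew_prod_sub (w : ℕ) :
    ∏ q ∈ PW w, (1 - 1 / (2 * (q : ℝ))) ≤ Real.exp (-((∑ q ∈ PW w, (q : ℝ)⁻¹) / 2)) := by
  have h : ∏ q ∈ PW w, (1 - 1 / (2 * (q : ℝ))) ≤ ∏ q ∈ PW w, Real.exp (-((q : ℝ)⁻¹ / 2)) := by
    apply Finset.prod_le_prod
    · intro q hq
      have h2 : (2 : ℝ) ≤ q := by exact_mod_cast (prime_of_mem_PW hq).two_le
      have : 1 / (2 * (q : ℝ)) ≤ 1 := by
        rw [div_le_one (by linarith)]; linarith
      linarith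
    · intro q hq
      have h2 : (2 : ℝ) ≤ q := by exact_mod_cast (prime_of_mem_PW hq).two_le
      have e : 1 - 1 / (2 * (q : ℝ)) = -((q : ℝ)⁻¹ / 2) + 1 := by
        have : (q : ℝ) ≠ 0 := by linarith
        field_simp
        ring
      rw [e]
      exact Real.add_one_le_exp _
  refine h.trans (le_of_eq ?_)
  rw [← Real.exp_sum, Finset.sum_neg_distrib, Finset.sum_div]

private lemma ew_prod_add (w : ℕ) :
    ∏ q ∈ PW w, (1 + 1 / (2 * (q : ℝ))) ≤ Real.exp ((∑ q ∈ PW w, (q : ℝ)⁻¹) / 2) := by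
  have h : ∏ q ∈ PW w, (1 + 1 / (2 * (q : ℝ))) ≤ ∏ q ∈ PW w, Real.exp ((q : ℝ)⁻¹ / 2) := by
    apply Finset.prod_le_prod
    · intro q hq
      positivity
    · intro q hq
      have h2 : (2 : ℝ) ≤ q := by exact_mod_cast (prime_of_mem_PW hq).two_le
      have e : 1 + 1 / (2 * (q : ℝ)) = (q : ℝ)⁻¹ / 2 + 1 := by
        have : (q : ℝ) ≠ 0 := by linarith
        field_simp
        ring
      rw [e]
      exact Real.add_one_le_exp _
  refine h.trans (le_of_eq ?_)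
  rw [← Real.exp_sum, Finset.sum_div]

private lemma ew_pow_four {L : ℝ} (hL : 0 ≤ L) :
    ((4 : ℝ) / 3) ^ ⌊8 / 5 * L⌋₊ ≤ Real.exp (12 / 25 * L) := by
  have h1 : (4 : ℝ) / 3 ≤ Real.exp (3 / 10) := by
    have := Real.quadratic_le_exp_of_nonneg (x := 3 / 10) (by norm_num)
    linarith
  have h2 : (⌊8 / 5 * L⌋₊ : ℝ) ≤ 8 / 5 * L := Nat.floor_le (by positivity)
  calc ((4 : ℝ) / 3) ^ ⌊8 / 5 * L⌋₊ ≤ (Real.exp (3 / 10)) ^ ⌊8 / 5 * L⌋₊ :=
        pow_le_pow_left₀ (by norm_num) h1 _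
    _ = Real.exp (⌊8 / 5 * L⌋₊ * (3 / 10)) := by rw [← Real.exp_nat_mul]
    _ ≤ Real.exp (12 / 25 * L) := by
        apply Real.exp_le_exp.2
        linarith

private lemma ew_pow_two {L : ℝ} :
    ((2 : ℝ) / 3) ^ ⌊8 / 5 * L⌋₊ ≤ 3 / 2 * Real.exp (-(8 / 15 * L)) := by
  have h1 : (2 : ℝ) / 3 ≤ Real.exp (-(1 / 3)) := by
    have := Real.add_one_le_exp (-(1 / 3 : ℝ))
    linarith
  have h2 : 8 / 5 * L < ⌊8 / 5 * L⌋₊ + 1 := Nat.lt_floor_add_one _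
  have h3 : ((2 : ℝ) / 3) ^ (⌊8 / 5 * L⌋₊ + 1) ≤ Real.exp (-(8 / 15 * L)) := by
    calc ((2 : ℝ) / 3) ^ (⌊8 / 5 * L⌋₊ + 1) ≤ (Real.exp (-(1 / 3))) ^ (⌊8 / 5 * L⌋₊ + 1) :=
          pow_le_pow_left₀ (by norm_num) h1 _
      _ = Real.exp (((⌊8 / 5 * L⌋₊ + 1 : ℕ) : ℝ) * (-(1 / 3))) := by rw [← Real.exp_nat_mul]
      _ ≤ Real.exp (-(8 / 15 * L)) := by
          apply Real.exp_le_exp.2
          push_cast
          linarith
  rw [pow_succ] at h3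
  linarith

/-- Proof. Let `y = 1 + log w`, `C₀` the constant of `mertens`
(`Pool/Agent/Lib/MP_6396c4_an/Mertens.lean`: `∑_{q ≤ w} 1 / q` is `log y` up to `C₀`), and
`T = ⌊8 / 5 * log y⌋₊`. Then `∏ (1 - 1 / (2 q)) ≤ exp (- ∑ 1 / (2 q)) ≤ e ^ (C₀ / 2) y ^ (-1 / 2)`
and
`∏ (1 + 1 / (2 q)) ≤ e ^ (C₀ / 2) y ^ (1 / 2)`. As `8 / 5 * log (4 / 3) < 0.461` and
`8 / 5 * log (3 / 2) > 0.64`, the numbers `K` with `om w (2 K) ≤ T` contribute at most
`C₁ N y ^ (-0.039)` (`few_omega`) and those with `om w (2 K) > T` at most `C₂ N y ^ (-0.14)`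
(`many_omega`; `(2 / 3) ^ T ≤ (3 / 2) exp (-(log (3 / 2)) 8 / 5 log y)`). Choose `w` large. -/
theorem ew (δ : ℝ) (hδ : 0 < δ) : ∃ N₀ : ℕ, ∀ N : ℕ, N₀ ≤ N →
    (((Finset.Icc 1 N).filter (fun K => ∃ p ∈ Finset.range (2 * N + 2), p.Prime ∧ N ≤ p ^ 10 ∧
      (p - 1) ∣ 2 * K)).card : ℝ) ≤ δ * N := by
  obtain ⟨C₁, hC₁, hfew⟩ := few_omega
  obtain ⟨C₀, hC₀, hmer⟩ := Pool.Agent.MP6396c4.mertens
  set B : ℝ := Real.exp (C₀ / 2) * (C₁ + 9 / 4) with hB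
  have hBpos : 0 < B := by positivity
  set L₀ : ℝ := max 0 (50 * Real.log (B / δ)) with hL₀
  obtain ⟨w, hw⟩ := exists_nat_ge (Real.exp (Real.exp L₀))
  have hw0 : (0 : ℝ) < w := (Real.exp_pos _).trans_le hw
  have hw1 : 1 ≤ w := by
    have : 0 < w := by exact_mod_cast hw0
    exact this
  have hlogw : Real.exp L₀ ≤ Real.log w := (Real.le_log_iff_exp_le hw0).2 hw
  have hlogw0 : 0 < Real.log w := (Real.exp_pos _).trans_le hlogw
  set L : ℝ := Real.log (1 + Real.log w) with hLdef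
  have hL : L₀ ≤ L := by
    rw [hLdef, Real.le_log_iff_exp_le (by linarith)]
    linarith
  have hL0 : 0 ≤ L := (le_max_left _ _).trans hL
  obtain ⟨hm1, hm2⟩ := hmer w hw1
  rw [ew_pr, ← hLdef] at hm1 hm2
  set S : ℝ := ∑ q ∈ PW w, (q : ℝ)⁻¹ with hS
  obtain ⟨N₀, hN₀⟩ := hfew w
  refine ⟨N₀, fun N hN => ?_⟩
  set T : ℕ := ⌊8 / 5 * L⌋₊ with hT
  have h1 := hN₀ N hN T
  have h2 := many_omega w N T
  have hsub : (Finset.Icc 1 N).filter (fun K => ∃ p ∈ Finset.range (2 * N + 2), p.Prime ∧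
      N ≤ p ^ 10 ∧ (p - 1) ∣ 2 * K) ⊆
      ((Finset.Icc 1 N).filter (fun K => (∃ p ∈ Finset.range (2 * N + 2), p.Prime ∧ N ≤ p ^ 10 ∧
        (p - 1) ∣ 2 * K) ∧ om w (2 * K) ≤ T)) ∪
      ((Finset.Icc 1 N).filter (fun K => T < om w (2 * K))) := by
    intro K hK
    rw [Finset.mem_filter] at hK
    rw [Finset.mem_union, Finset.mem_filter, Finset.mem_filter]
    rcases le_or_gt (om w (2 * K)) T with h | h
    · exact Or.inl ⟨hK.1, hK.2, h⟩
    · exact Or.inr ⟨hK.1, h⟩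
  have hcard := (Finset.card_le_card hsub).trans (Finset.card_union_le _ _)
  have hcardR : (((Finset.Icc 1 N).filter (fun K => ∃ p ∈ Finset.range (2 * N + 2), p.Prime ∧
      N ≤ p ^ 10 ∧ (p - 1) ∣ 2 * K)).card : ℝ) ≤
      (((Finset.Icc 1 N).filter (fun K => (∃ p ∈ Finset.range (2 * N + 2), p.Prime ∧
        N ≤ p ^ 10 ∧ (p - 1) ∣ 2 * K) ∧ om w (2 * K) ≤ T)).card : ℝ) +
      (((Finset.Icc 1 N).filter (fun K => T < om w (2 * K))).card : ℝ) := by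
    exact_mod_cast hcard
  have hN0 : (0 : ℝ) ≤ N := Nat.cast_nonneg N
  -- the exponential of the final bound
  have hexp : Real.exp (-(L / 50)) ≤ δ / B := by
    have h3 : Real.log (B / δ) ≤ L / 50 := by
      have := (le_max_right 0 (50 * Real.log (B / δ))).trans hL
      linarith
    calc Real.exp (-(L / 50)) ≤ Real.exp (-Real.log (B / δ)) := Real.exp_le_exp.2 (by linarith)
      _ = δ / B := by rw [Real.exp_neg, Real.exp_log (by positivity), inv_div]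
  have hP1 : ∏ q ∈ PW w, (1 - 1 / (2 * (q : ℝ))) ≤ Real.exp (C₀ / 2) * Real.exp (-(L / 2)) := by
    refine (ew_prod_sub w).trans ?_
    rw [← Real.exp_add]
    apply Real.exp_le_exp.2
    linarith
  have hP2 : ∏ q ∈ PW w, (1 + 1 / (2 * (q : ℝ))) ≤ Real.exp (C₀ / 2) * Real.exp (L / 2) := by
    refine (ew_prod_add w).trans ?_
    rw [← Real.exp_add]
    apply Real.exp_le_exp.2
    linarith
  have hQ1 : C₁ * (4 / 3) ^ T * N * ∏ q ∈ PW w, (1 - 1 / (2 * (q : ℝ))) ≤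
      C₁ * Real.exp (C₀ / 2) * Real.exp (-(L / 50)) * N := by
    have e1 := ew_pow_four hL0
    rw [← hT] at e1
    calc C₁ * (4 / 3) ^ T * N * ∏ q ∈ PW w, (1 - 1 / (2 * (q : ℝ))) ≤
        C₁ * (4 / 3) ^ T * N * (Real.exp (C₀ / 2) * Real.exp (-(L / 2))) :=
          mul_le_mul_of_nonneg_left hP1 (by positivity)
      _ = C₁ * N * Real.exp (C₀ / 2) * Real.exp (-(L / 2)) * (4 / 3) ^ T := by ring
      _ ≤ C₁ * N * Real.exp (C₀ / 2) * Real.exp (-(L / 2)) * Real.exp (12 / 25 * L) :=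
          mul_le_mul_of_nonneg_left e1 (by positivity)
      _ = C₁ * N * Real.exp (C₀ / 2) * (Real.exp (-(L / 2)) * Real.exp (12 / 25 * L)) := by ring
      _ = C₁ * Real.exp (C₀ / 2) * Real.exp (-(L / 50)) * N := by
          rw [← Real.exp_add, show -(L / 2) + 12 / 25 * L = -(L / 50) by ring]; ring
  have hQ2 : 3 / 2 * (2 / 3) ^ T * N * ∏ q ∈ PW w, (1 + 1 / (2 * (q : ℝ))) ≤
      9 / 4 * Real.exp (C₀ / 2) * Real.exp (-(L / 50)) * N := by
    have e1 := ew_pow_two (L := L)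
    rw [← hT] at e1
    calc 3 / 2 * (2 / 3) ^ T * N * ∏ q ∈ PW w, (1 + 1 / (2 * (q : ℝ))) ≤
        3 / 2 * (2 / 3) ^ T * N * (Real.exp (C₀ / 2) * Real.exp (L / 2)) :=
          mul_le_mul_of_nonneg_left hP2 (by positivity)
      _ = 3 / 2 * N * Real.exp (C₀ / 2) * Real.exp (L / 2) * (2 / 3) ^ T := by ring
      _ ≤ 3 / 2 * N * Real.exp (C₀ / 2) * Real.exp (L / 2) *
            (3 / 2 * Real.exp (-(8 / 15 * L))) :=
          mul_le_mul_of_nonneg_left e1 (by positivity)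
      _ = 9 / 4 * N * Real.exp (C₀ / 2) * (Real.exp (L / 2) * Real.exp (-(8 / 15 * L))) := by ring
      _ ≤ 9 / 4 * N * Real.exp (C₀ / 2) * Real.exp (-(L / 50)) := by
          apply mul_le_mul_of_nonneg_left _ (by positivity)
          rw [← Real.exp_add]
          apply Real.exp_le_exp.2
          linarith
      _ = 9 / 4 * Real.exp (C₀ / 2) * Real.exp (-(L / 50)) * N := by ring
  calc (((Finset.Icc 1 N).filter (fun K => ∃ p ∈ Finset.range (2 * N + 2), p.Prime ∧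
      N ≤ p ^ 10 ∧ (p - 1) ∣ 2 * K)).card : ℝ) ≤
      C₁ * Real.exp (C₀ / 2) * Real.exp (-(L / 50)) * N +
      9 / 4 * Real.exp (C₀ / 2) * Real.exp (-(L / 50)) * N := by linarith
    _ = B * Real.exp (-(L / 50)) * N := by rw [hB]; ring
    _ ≤ B * (δ / B) * N := by
        apply mul_le_mul_of_nonneg_right _ hN0
        exact mul_le_mul_of_nonneg_left hexp hBpos.le
    _ = δ * N := by rw [mul_div_cancel₀ δ hBpos.ne']

end Pool.Agent.C497
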