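import Pool.Agent.Lib.MP_c497bd_nt.EW.Pairs
import Pool.Agent.Lib.MP_c497bd_nt.EW.Crt

/-!
# MP_c497bd, divisors `p - 1`: numbers with few small prime divisors
-/

namespace Pool.Agent.C497

private theorem dvd_Wd {w q : ℕ} (hq : q ∈ PW w) : q ∣ Wd w := Finset.dvd_prod_of_mem _ hq

private theorem coprime_Wd {w p : ℕ} (hp : p.Prime) (h : w < p) : p.Coprime (Wd w) := by
  unfold Wd
  refine Nat.Coprime.prod_right fun q hq => ?_
  refine (Nat.coprime_primes hp (prime_of_mem_PW hq)).2 ?_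
  have := le_of_mem_PW hq
  omega

/-- The number of the small prime divisors depends on the residue classes only. -/
private theorem om_class {w p m : ℕ} (hp : p.Prime) (h : w < p) :
    om w ((p - 1) * m) = om w ((p % Wd w - 1) * (m % Wd w)) := by
  unfold om
  congr 1
  refine Finset.filter_congr fun q hq => ?_
  have hqp := prime_of_mem_PW hq
  have hqW := dvd_Wd hq
  rw [hqp.dvd_mul, hqp.dvd_mul]
  have h2 : q ∣ m ↔ q ∣ m % Wd w := (Nat.dvd_mod_iff hqW).symm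
  have hc : (p % Wd w).Coprime (Wd w) := by
    have h3 : p % Wd w ≡ p [MOD Wd w] := Nat.mod_modEq _ _
    have h4 := h3.gcd_eq
    have h5 := coprime_Wd hp h
    unfold Nat.Coprime at h5 ⊢
    rw [h4, h5]
  have hW2 : 2 ≤ Wd w := hqp.two_le.trans (Nat.le_of_dvd (Wd_pos w) hqW)
  have hc1 : 1 ≤ p % Wd w := by
    rcases Nat.eq_zero_or_pos (p % Wd w) with h0 | h0
    · rw [h0, Nat.coprime_zero_left] at hc
      omega
    · exact h0
  have h1 : q ∣ p - 1 ↔ q ∣ p % Wd w - 1 := by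
    have hpe : p - 1 = (p % Wd w - 1) + Wd w * (p / Wd w) := by
      have := Nat.mod_add_div p (Wd w)
      omega
    rw [hpe]
    exact (Nat.dvd_add_iff_left (hqW.mul_right _)).symm
  rw [h1, h2]

/-- Proof. Let `W = Wd w`. For every such `K` choose `p` and `m` with `(p - 1) m = 2 K`; different
`K` have different pairs `(p, m)`, all of them are in the set of `pairs_class` with
`c = p % W`, `d = m % W`; `c` is prime to `W` because `p > w` for large `N` (`w ^ 10 < N`). The weight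
`(4 / 3) ^ T * (3 / 4) ^ om w ((p - 1) m)` is at least `1`, and `om w ((p - 1) m) = om w ((c - 1) d)`
(if `W ≥ 2` then `c ≥ 1`; if `W = 1` both are `0`). So the number is at most
`(4 / 3) ^ T * ∑_{c, d} (3 / 4) ^ om w ((c - 1) d) * (C N / (φ W * W))`; use `crt_sum`. -/
theorem few_omega : ∃ C : ℝ, 0 < C ∧ ∀ w : ℕ, ∃ N₀ : ℕ, ∀ N : ℕ, N₀ ≤ N → ∀ T : ℕ,
    (((Finset.Icc 1 N).filter (fun K => (∃ p ∈ Finset.range (2 * N + 2), p.Prime ∧ N ≤ p ^ 10 ∧
      (p - 1) ∣ 2 * K) ∧ om w (2 * K) ≤ T)).card : ℝ) ≤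
      C * (4 / 3) ^ T * N * ∏ q ∈ PW w, (1 - 1 / (2 * (q : ℝ))) := by
  classical
  obtain ⟨C, hC, hpairs⟩ := pairs_class
  refine ⟨C, hC, fun w => ?_⟩
  obtain ⟨N₁, hN₁⟩ := hpairs (Wd w) (Wd_pos w)
  refine ⟨max N₁ (w ^ 10 + 1), fun N hN T => ?_⟩
  have hNa : N₁ ≤ N := (le_max_left _ _).trans hN
  have hNb : w ^ 10 < N := Nat.lt_of_succ_le ((le_max_right _ _).trans hN)
  set W := Wd w with hW
  have hWpos : 0 < W := Wd_pos w
  set P := ((Finset.Icc 1 (2 * N + 1)) ×ˢ (Finset.Icc 1 (2 * N))).filter (fun x : ℕ × ℕ =>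
    x.1.Prime ∧ N ≤ x.1 ^ 10 ∧ (x.1 - 1) * x.2 ≤ 2 * N ∧ om w ((x.1 - 1) * x.2) ≤ T) with hP
  have hlt : ∀ p : ℕ, N ≤ p ^ 10 → w < p := fun p hp =>
    lt_of_pow_lt_pow_left₀ 10 (Nat.zero_le _) (hNb.trans_le hp)
  -- the numbers `K` are determined by the pairs
  have h1 : ((Finset.Icc 1 N).filter (fun K => (∃ p ∈ Finset.range (2 * N + 2), p.Prime ∧
      N ≤ p ^ 10 ∧ (p - 1) ∣ 2 * K) ∧ om w (2 * K) ≤ T)) ⊆
      P.image (fun x => (x.1 - 1) * x.2 / 2) := by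
    intro K hK
    rw [Finset.mem_filter, Finset.mem_Icc] at hK
    obtain ⟨⟨hK1, hKN⟩, ⟨p, hp, hpp, hpN, m, hm⟩, hom⟩ := hK
    rw [Finset.mem_range] at hp
    have hp1 := hpp.one_lt
    have hm1 : 1 ≤ m := by
      rcases Nat.eq_zero_or_pos m with h0 | h0
      · rw [h0, mul_zero] at hm
        omega
      · exact h0
    have hmN : m ≤ 2 * N := by
      have : 1 * m ≤ (p - 1) * m := Nat.mul_le_mul_right _ (by omega)
      omega
    refine Finset.mem_image.2 ⟨(p, m), ?_, ?_⟩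
    · rw [hP, Finset.mem_filter, Finset.mem_product, Finset.mem_Icc, Finset.mem_Icc]
      refine ⟨⟨⟨by omega, by omega⟩, hm1, hmN⟩, hpp, hpN, ?_, ?_⟩
      · show (p - 1) * m ≤ 2 * N
        rw [← hm]
        omega
      · show om w ((p - 1) * m) ≤ T
        rw [← hm]
        exact hom
    · show (p - 1) * m / 2 = K
      rw [← hm]
      omega
  have h2 : (((Finset.Icc 1 N).filter (fun K => (∃ p ∈ Finset.range (2 * N + 2), p.Prime ∧
      N ≤ p ^ 10 ∧ (p - 1) ∣ 2 * K) ∧ om w (2 * K) ≤ T)).card : ℝ) ≤ P.card := by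
    exact_mod_cast (Finset.card_le_card h1).trans Finset.card_image_le
  refine h2.trans ?_
  -- the weights
  have h3 : (P.card : ℝ) ≤ ∑ x ∈ P, (4 / 3 : ℝ) ^ T * (3 / 4) ^ om w ((x.1 - 1) * x.2) := by
    rw [Finset.card_eq_sum_ones, Nat.cast_sum]
    refine Finset.sum_le_sum fun x hx => ?_
    have hx2 := (Finset.mem_filter.1 hx).2.2.2.2
    obtain ⟨k, hk⟩ := Nat.exists_eq_add_of_le hx2
    rw [hk, pow_add, Nat.cast_one]
    have e1 : (4 / 3 : ℝ) ^ om w ((x.1 - 1) * x.2) * (3 / 4) ^ om w ((x.1 - 1) * x.2) = 1 := by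
      rw [← mul_pow]
      norm_num
    have e2 : (1 : ℝ) ≤ (4 / 3) ^ k := one_le_pow₀ (by norm_num)
    calc (1 : ℝ) ≤ (4 / 3) ^ k := e2
      _ = (4 / 3 : ℝ) ^ om w ((x.1 - 1) * x.2) * (3 / 4) ^ om w ((x.1 - 1) * x.2) *
          (4 / 3) ^ k := by rw [e1, one_mul]
      _ = _ := by ring
  refine h3.trans ?_
  -- the residue classes
  set R := ((Finset.range W).filter (fun c => c.Coprime W)) ×ˢ (Finset.range W) with hR
  have hmaps : ∀ x ∈ P, (x.1 % W, x.2 % W) ∈ R := by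
    intro x hx
    have hx' := (Finset.mem_filter.1 hx).2
    rw [hR, Finset.mem_product, Finset.mem_filter, Finset.mem_range, Finset.mem_range]
    refine ⟨⟨Nat.mod_lt _ hWpos, ?_⟩, Nat.mod_lt _ hWpos⟩
    show (x.1 % W).Coprime W
    have h4 := (Nat.mod_modEq x.1 W).gcd_eq
    have h5 : x.1.Coprime W := coprime_Wd hx'.1 (hlt _ hx'.2.1)
    unfold Nat.Coprime at h5 ⊢
    rw [h4, h5]
  rw [← Finset.sum_fiberwise_of_maps_to hmaps]
  have h4 : ∀ z ∈ R, ∑ x ∈ P with (x.1 % W, x.2 % W) = z,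
      (4 / 3 : ℝ) ^ T * (3 / 4) ^ om w ((x.1 - 1) * x.2) ≤
      ((3 : ℝ) / 4) ^ om w ((z.1 - 1) * z.2) *
        ((4 / 3 : ℝ) ^ T * (C * N / (Nat.totient W * W))) := by
    intro z hz
    have e1 : ∑ x ∈ P with (x.1 % W, x.2 % W) = z,
        (4 / 3 : ℝ) ^ T * (3 / 4) ^ om w ((x.1 - 1) * x.2) =
        ∑ x ∈ P with (x.1 % W, x.2 % W) = z,
          (4 / 3 : ℝ) ^ T * (3 / 4) ^ om w ((z.1 - 1) * z.2) := by
      refine Finset.sum_congr rfl fun x hx => ?_
      obtain ⟨hxP, hxz⟩ := Finset.mem_filter.1 hx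
      have hx' := (Finset.mem_filter.1 hxP).2
      have := om_class (w := w) (m := x.2) hx'.1 (hlt _ hx'.2.1)
      rw [this, ← hxz]
    rw [e1, Finset.sum_const, nsmul_eq_mul]
    have e2 : ((P.filter (fun x => (x.1 % W, x.2 % W) = z)).card : ℝ) ≤
        C * N / (Nat.totient W * W) := by
      refine le_trans ?_ (hN₁ N hNa z.1 z.2)
      have : P.filter (fun x => (x.1 % W, x.2 % W) = z) ⊆
          (((Finset.Icc 1 (2 * N + 1)) ×ˢ (Finset.Icc 1 (2 * N))).filter (fun x : ℕ × ℕ =>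
            x.1.Prime ∧ x.1 ≡ z.1 [MOD W] ∧ x.2 ≡ z.2 [MOD W] ∧ N ≤ x.1 ^ 10 ∧
              (x.1 - 1) * x.2 ≤ 2 * N)) := by
        intro x hx
        obtain ⟨hxP, hxz⟩ := Finset.mem_filter.1 hx
        obtain ⟨hx1, hx2⟩ := Finset.mem_filter.1 hxP
        refine Finset.mem_filter.2 ⟨hx1, hx2.1, ?_, ?_, hx2.2.1, hx2.2.2.1⟩
        · rw [← hxz]
          exact (Nat.mod_modEq _ _).symm
        · rw [← hxz]
          exact (Nat.mod_modEq _ _).symm
      exact_mod_cast Finset.card_le_card this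
    have e3 : (0 : ℝ) ≤ (4 / 3 : ℝ) ^ T * (3 / 4) ^ om w ((z.1 - 1) * z.2) := by positivity
    calc ((P.filter (fun x => (x.1 % W, x.2 % W) = z)).card : ℝ) *
          ((4 / 3 : ℝ) ^ T * (3 / 4) ^ om w ((z.1 - 1) * z.2))
        ≤ C * N / (Nat.totient W * W) *
          ((4 / 3 : ℝ) ^ T * (3 / 4) ^ om w ((z.1 - 1) * z.2)) :=
          mul_le_mul_of_nonneg_right e2 e3
      _ = _ := by ring
  refine (Finset.sum_le_sum h4).trans ?_
  rw [← Finset.sum_mul, hR, Finset.sum_product]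
  have h5 := crt_sum w
  rw [← hW] at h5
  rw [h5]
  have hφ : (0 : ℝ) < Nat.totient W := by exact_mod_cast Nat.totient_pos.2 hWpos
  have hWr : (0 : ℝ) < W := by exact_mod_cast hWpos
  apply le_of_eq
  field_simp

end Pool.Agent.C497
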