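import Pool.Agent.Lib.MP_c497bd_nt.EW.Bt

/-!
# MP_c497bd, divisors `p - 1`: pairs `(p, m)` in residue classes of a fixed modulus
-/

namespace Pool.Agent.C497

/-- `∑ 1 / m` over a residue class.

Proof. The members of the class in `[1, X]` are at least `d₀, W, 2 W, …` with `d₀ ≥ 1`, and
`∑_{j ≤ X} 1 / j ≤ 1 + log X`. -/
theorem harm_class (W d X : ℕ) (hW : 1 ≤ W) (hX : 1 ≤ X) :
    ∑ m ∈ (Finset.Icc 1 X).filter (fun m => m ≡ d [MOD W]), (1 : ℝ) / m ≤
      1 + (1 + Real.log X) / W := by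
  classical
  set g : ℕ → ℝ := fun j => if j = 0 then 1 else 1 / ((W : ℝ) * j) with hg
  have hg0 : ∀ j, 0 ≤ g j := by
    intro j
    simp only [hg]
    split_ifs
    · norm_num
    · positivity
  have hWr : (1 : ℝ) ≤ W := by exact_mod_cast hW
  have h1 : ∀ m ∈ (Finset.Icc 1 X).filter (fun m => m ≡ d [MOD W]),
      (1 : ℝ) / m ≤ g (m / W) := by
    intro m hm
    rw [Finset.mem_filter, Finset.mem_Icc] at hm
    have hm1 : (1 : ℝ) ≤ m := by exact_mod_cast hm.1.1
    by_cases h0 : m / W = 0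
    · simp only [hg, h0, if_true]
      rw [div_le_one (by linarith)]
      exact hm1
    · simp only [hg, if_neg h0]
      have h2 : 1 ≤ m / W := Nat.one_le_iff_ne_zero.2 h0
      have h3 : (1 : ℝ) ≤ ((m / W : ℕ) : ℝ) := by exact_mod_cast h2
      have h4 : W * (m / W) ≤ m := Nat.mul_div_le m W
      have h5 : (W : ℝ) * ((m / W : ℕ) : ℝ) ≤ m := by exact_mod_cast h4
      exact one_div_le_one_div_of_le (by positivity) h5
  have hinj : Set.InjOn (fun m => m / W)
      ((Finset.Icc 1 X).filter (fun m => m ≡ d [MOD W]) : Set ℕ) := by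
    intro m hm m' hm' h
    rw [Finset.mem_coe, Finset.mem_filter] at hm hm'
    have h2 : m % W = m' % W := hm.2.trans hm'.2.symm
    have h3 : m / W = m' / W := h
    rw [← Nat.div_add_mod m W, ← Nat.div_add_mod m' W, h2, h3]
  calc ∑ m ∈ (Finset.Icc 1 X).filter (fun m => m ≡ d [MOD W]), (1 : ℝ) / m
      ≤ ∑ m ∈ (Finset.Icc 1 X).filter (fun m => m ≡ d [MOD W]), g (m / W) :=
        Finset.sum_le_sum h1
    _ = ∑ j ∈ ((Finset.Icc 1 X).filter (fun m => m ≡ d [MOD W])).image (fun m => m / W), g j :=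
        (Finset.sum_image hinj).symm
    _ ≤ ∑ j ∈ Finset.range (X + 1), g j := by
        apply Finset.sum_le_sum_of_subset_of_nonneg
        · intro j hj
          obtain ⟨m, hm, rfl⟩ := Finset.mem_image.1 hj
          rw [Finset.mem_filter, Finset.mem_Icc] at hm
          have h2 : m / W ≤ m := Nat.div_le_self m W
          rw [Finset.mem_range]
          omega
        · intro j _ _
          exact hg0 j
    _ = (harmonic X : ℝ) / W + 1 := by
        rw [Finset.sum_range_succ']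
        congr 1
        · rw [harmonic]
          push_cast
          rw [Finset.sum_div]
          apply Finset.sum_congr rfl
          intro j _
          have h2 : ((j : ℝ) + 1) ≠ 0 := by positivity
          simp only [hg, Nat.add_eq_zero_iff, one_ne_zero, and_false, if_false]
          push_cast
          field_simp
    _ ≤ 1 + (1 + Real.log X) / W := by
        have h2 := harmonic_le_one_add_log X
        have h3 : (harmonic X : ℝ) / W ≤ (1 + Real.log X) / W := by gcongr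
        linarith

/-- Proof. `p ^ 10 ≥ N` and `(p - 1) m ≤ 2 N` give `p ≤ 2 N / m + 1 ≤ 3 N / m` hence (for `m ≤ N`;
note that `m ≤ 2 N / (p - 1) ≤ N` for large `N`) by `bt_class` with
`x = ⌊2 N / m⌋ + 1 ≥ p ≥ N ^ (1 / 10)` the number of the `p` for a given `m` is at most
`C x / (φ W log x) ≤ 30 C N / (m φ W log N)`. Sum over `m ≡ d` with `harm_class`:
`(30 C N / (φ W log N)) (1 + (1 + log (2 N)) / W) ≤ 120 C N / (φ W * W)` if `log N ≥ W + 1`. -/
theorem pairs_class : ∃ C : ℝ, 0 < C ∧ ∀ W : ℕ, 1 ≤ W → ∃ N₀ : ℕ, ∀ N : ℕ, N₀ ≤ N → ∀ c d : ℕ,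
    ((((Finset.Icc 1 (2 * N + 1)) ×ˢ (Finset.Icc 1 (2 * N))).filter (fun x : ℕ × ℕ =>
      x.1.Prime ∧ x.1 ≡ c [MOD W] ∧ x.2 ≡ d [MOD W] ∧ N ≤ x.1 ^ 10 ∧
        (x.1 - 1) * x.2 ≤ 2 * N)).card : ℝ) ≤ C * N / (Nat.totient W * W) := by
  classical
  obtain ⟨C0, hC0, hbt⟩ := bt_class
  refine ⟨80 * C0, by positivity, fun W hW => ?_⟩
  obtain ⟨x₀, hx₀, hb⟩ := hbt W hW
  refine ⟨max (x₀ ^ 10) ⌈Real.exp (W + 2)⌉₊, fun N hN c d => ?_⟩
  have hN1 : x₀ ^ 10 ≤ N := le_trans (le_max_left _ _) hN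
  have hN2 : Real.exp (W + 2) ≤ N := by
    refine le_trans (Nat.le_ceil _) ?_
    exact_mod_cast le_trans (le_max_right _ _) hN
  have hN0 : (0 : ℝ) < N := lt_of_lt_of_le (Real.exp_pos _) hN2
  have hlog : (W : ℝ) + 2 ≤ Real.log N := (Real.le_log_iff_exp_le hN0).2 hN2
  have hWr : (1 : ℝ) ≤ W := by exact_mod_cast hW
  have hlog0 : 0 < Real.log N := by linarith
  have hphi : (0 : ℝ) < Nat.totient W := by exact_mod_cast Nat.totient_pos.2 hW
  set S := ((Finset.Icc 1 (2 * N + 1)) ×ˢ (Finset.Icc 1 (2 * N))).filter (fun x : ℕ × ℕ =>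
      x.1.Prime ∧ x.1 ≡ c [MOD W] ∧ x.2 ≡ d [MOD W] ∧ N ≤ x.1 ^ 10 ∧
        (x.1 - 1) * x.2 ≤ 2 * N) with hS
  set T := (Finset.Icc 1 (2 * N)).filter (fun m => m ≡ d [MOD W]) with hT
  have hmem : ∀ y ∈ S, y.1.Prime ∧ y.1 ≡ c [MOD W] ∧ 1 ≤ y.2 ∧ y.2 ≤ 2 * N ∧
      y.2 ≡ d [MOD W] ∧ N ≤ y.1 ^ 10 ∧ (y.1 - 1) * y.2 ≤ 2 * N := by
    intro y hy
    rw [hS, Finset.mem_filter, Finset.mem_product, Finset.mem_Icc, Finset.mem_Icc] at hy
    obtain ⟨⟨-, h1, h2⟩, h3, h4, h5, h6, h7⟩ := hy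
    exact ⟨h3, h4, h1, h2, h5, h6, h7⟩
  have hfib : ∀ m ∈ T, ((S.filter (fun x => x.2 = m)).card : ℝ) ≤
      40 * C0 * N / (Nat.totient W * Real.log N) * (1 / m) := by
    intro m hm
    rw [hT, Finset.mem_filter, Finset.mem_Icc] at hm
    obtain ⟨⟨hm1, hm2⟩, hmd⟩ := hm
    have hm1r : (1 : ℝ) ≤ m := by exact_mod_cast hm1
    have hm2r : (m : ℝ) ≤ 2 * N := by exact_mod_cast hm2
    rcases (S.filter (fun x => x.2 = m)).eq_empty_or_nonempty with hne | ⟨⟨p, m'⟩, hp⟩
    · rw [hne, Finset.card_empty, Nat.cast_zero]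
      positivity
    have key : ∀ y ∈ S.filter (fun x => x.2 = m), y.1 ≤ 2 * N / m + 1 := by
      intro y hy
      rw [Finset.mem_filter] at hy
      obtain ⟨h1, h2, h3, h4, h5, h6, h7⟩ := hmem y hy.1
      rw [hy.2] at h7
      have h8 : y.1 - 1 ≤ 2 * N / m := (Nat.le_div_iff_mul_le hm1).2 h7
      omega
    have hsub : (S.filter (fun x => x.2 = m)).card ≤
        ((Finset.Icc 1 (2 * N / m + 1)).filter (fun p => p.Prime ∧ p ≡ c [MOD W])).card := by
      apply Finset.card_le_card_of_injOn Prod.fst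
      · intro y hy
        have hy' := hy
        rw [Finset.mem_coe] at hy
        have h0 := key y hy
        rw [Finset.mem_filter] at hy
        obtain ⟨h1, h2, -⟩ := hmem y hy.1
        rw [Finset.mem_coe, Finset.mem_filter, Finset.mem_Icc]
        exact ⟨⟨h1.one_lt.le, h0⟩, h1, h2⟩
      · intro y hy y' hy' h
        rw [Finset.mem_coe, Finset.mem_filter] at hy hy'
        exact Prod.ext h (hy.2.trans hy'.2.symm)
    have hpx := key _ hp
    obtain ⟨h1, h2, h3, h4, h5, h6, h7⟩ := hmem _ (Finset.mem_filter.1 hp).1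
    simp only at hpx h1 h6
    set x := 2 * N / m + 1 with hx
    have hNx : N ≤ x ^ 10 := h6.trans (Nat.pow_le_pow_left hpx 10)
    have hx0 : x₀ ≤ x := by
      by_contra h
      push Not at h
      have h8 : x ^ 10 < x₀ ^ 10 := Nat.pow_lt_pow_left h (by norm_num)
      omega
    have hx1 : 1 ≤ x := by omega
    have hxr : (1 : ℝ) ≤ x := by exact_mod_cast hx1
    have hlogx : Real.log N / 10 ≤ Real.log x := by
      have h8 : Real.log N ≤ Real.log ((x : ℝ) ^ 10) := by
        apply Real.log_le_log hN0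
        exact_mod_cast hNx
      rw [Real.log_pow] at h8
      push_cast at h8
      linarith
    have hxle : (x : ℝ) ≤ 4 * N / m := by
      have h8 : ((2 * N / m : ℕ) : ℝ) ≤ ((2 * N : ℕ) : ℝ) / m := Nat.cast_div_le
      have h9 : (1 : ℝ) ≤ 2 * N / m := (one_le_div (by linarith)).2 hm2r
      have h10 : (4 : ℝ) * N / m = 2 * N / m + 2 * N / m := by ring
      rw [hx]
      push_cast at h8 ⊢
      linarith
    calc ((S.filter (fun x => x.2 = m)).card : ℝ)
        ≤ (((Finset.Icc 1 x).filter (fun p => p.Prime ∧ p ≡ c [MOD W])).card : ℝ) := by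
          exact_mod_cast hsub
      _ ≤ C0 * x / (Nat.totient W * Real.log x) := hb x hx0 c
      _ ≤ C0 * (4 * N / m) / (Nat.totient W * (Real.log N / 10)) := by gcongr
      _ = 40 * C0 * N / (Nat.totient W * Real.log N) * (1 / m) := by
          field_simp
          ring
  have hcard : (S.card : ℝ) = ∑ m ∈ T, ((S.filter (fun x => x.2 = m)).card : ℝ) := by
    have h1 := Finset.card_eq_sum_card_fiberwise (f := Prod.snd) (s := S) (t := T) (by
      intro y hy
      obtain ⟨-, -, h3, h4, h5, -, -⟩ := hmem y hy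
      exact Finset.mem_coe.2 (Finset.mem_filter.2 ⟨Finset.mem_Icc.2 ⟨h3, h4⟩, h5⟩))
    exact_mod_cast h1
  rw [hcard]
  have h2N : 1 ≤ 2 * N := by
    have h1 : (0 : ℝ) < N := hN0
    have h2 : 0 < N := by exact_mod_cast h1
    omega
  have hh := harm_class W d (2 * N) hW h2N
  rw [← hT] at hh
  have hlog2 : Real.log ((2 * N : ℕ) : ℝ) = Real.log 2 + Real.log N := by
    push_cast
    rw [Real.log_mul (by norm_num) hN0.ne']
  have hl2 : Real.log 2 ≤ 1 := by
    have := Real.log_two_lt_d9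
    linarith
  have hh2 : 1 + (1 + Real.log ((2 * N : ℕ) : ℝ)) / W ≤ 2 * Real.log N / W := by
    rw [hlog2, le_div_iff₀ (by linarith)]
    have h3 : (1 + (1 + (Real.log 2 + Real.log N)) / W) * (W : ℝ) =
        W + 1 + Real.log 2 + Real.log N := by
      field_simp
      ring
    rw [h3]
    linarith
  calc ∑ m ∈ T, ((S.filter (fun x => x.2 = m)).card : ℝ)
      ≤ ∑ m ∈ T, 40 * C0 * N / (Nat.totient W * Real.log N) * (1 / m) := Finset.sum_le_sum hfib
    _ = 40 * C0 * N / (Nat.totient W * Real.log N) * ∑ m ∈ T, (1 : ℝ) / m := by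
        rw [Finset.mul_sum]
    _ ≤ 40 * C0 * N / (Nat.totient W * Real.log N) * (2 * Real.log N / W) := by
        gcongr
        exact hh.trans hh2
    _ = 80 * C0 * N / (Nat.totient W * W) := by
        field_simp
        ring

end Pool.Agent.C497
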